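import Mathlib

namespace Pool.Agent.H.MP_2a19ed_co

open Set Filter Topology

variable {σ : Type} {L : AddSubgroup (σ → ℝ)}

theorem dir (hC : ∀ y : σ → ℝ, ∃ l ∈ L, ∀ a b, y a - l a - (y b - l b) ≤ 1)
    (hF : ∀ y : σ → ℝ, {l | l ∈ L ∧ ∀ a b, y a - l a - (y b - l b) ≤ 2}.Finite) (p w : σ → ℝ)
    (hw : ∀ a, |w a| ≤ 1) : ∃ l ∈ L, (∀ a b, p a - l a - (p b - l b) ≤ 1) ∧
      ∀ a b, p a - l a - (p b - l b) = 1 → w a ≤ w b := by
  obtain ⟨l, hl, h⟩ : ∃ l ∈ L, ∃ᶠ s in 𝓝[>] (0 : ℝ), ∀ a b,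
      p a + s * w a - l a - (p b + s * w b - l b) ≤ 1 := by
    by_contra n
    push Not at n
    have e := (hF p).eventually_all.2 fun l hl => n l hl.1
    obtain ⟨s, h1, h2⟩ := (e.and (Ioo_mem_nhdsGT (show (0 : ℝ) < 1 / 2 by norm_num))).exists
    obtain ⟨l, hl, h⟩ := hC fun a => p a + s * w a
    obtain ⟨a, b, k⟩ := h1 l ⟨hl, fun a b => by
      nlinarith [h a b, abs_le.1 (hw a), abs_le.1 (hw b), h2.1, h2.2]⟩
    exact k.not_ge (h a b)
  refine ⟨l, hl, fun a b => ?_, fun a b e => ?_⟩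
  · by_contra n
    have c : ContinuousAt (fun s : ℝ => p a + s * w a - l a - (p b + s * w b - l b)) 0 := by fun_prop
    obtain ⟨s, h1, h2⟩ := (h.and_eventually (nhdsWithin_le_nhds
      (continuousAt_const.eventually_lt c (f := fun _ => 1) (by simpa [lt_sub_iff_add_lt] using n)))).exists
    exact h2.not_ge (h1 a b)
  · obtain ⟨s, h1, h2⟩ := (h.and_eventually self_mem_nhdsWithin).exists
    have : 0 < s := h2
    nlinarith [h1 a b]

theorem ridge [DecidableEq σ] (hP : ∀ l ∈ L, l ≠ 0 → ∃ a b, 2 ≤ l a - l b)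
    (hC : ∀ y : σ → ℝ, ∃ l ∈ L, ∀ a b, y a - l a - (y b - l b) ≤ 1)
    (hF : ∀ y : σ → ℝ, {l | l ∈ L ∧ ∀ a b, y a - l a - (y b - l b) ≤ 2}.Finite)
    {i j k : σ} (ij : i ≠ j) (ik : i ≠ k) (jk : j ≠ k) (p : σ → ℝ) (pi : p i = 1) (pj : p j = 0)
    (pk : p k = 0) (pa : ∀ a, a ≠ i → a ≠ j → a ≠ k → 0 < p a ∧ p a < 1)
    (hg : ∀ l ∈ L, ∀ a b, p a - l a - (p b - l b) = 1 →
      (a = i ∨ a = j ∨ a = k) ∧ (b = i ∨ b = j ∨ b = k)) :
    ∃ l ∈ L, l i - l j = 2 ∧ l k - l j = 1 ∧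
      ∀ a, a ≠ i → a ≠ j → a ≠ k → p a < l a - l j ∧ l a - l j < p a + 1 := by
  have bd : ∀ a, 0 ≤ p a ∧ p a ≤ 1 := fun a => by
    by_cases h1 : a = i
    · simp [h1, pi]
    by_cases h2 : a = j
    · simp [h2, pj]
    by_cases h3 : a = k
    · simp [h3, pk]
    exact ⟨(pa a h1 h2 h3).1.le, (pa a h1 h2 h3).2.le⟩
  have T : ∀ j k, i ≠ j → i ≠ k → j ≠ k → p j = 0 → p k = 0 →
      (∀ a, a ≠ i → a ≠ j → a ≠ k → 0 < p a ∧ p a < 1) → ∃ l ∈ L,
      (∀ a b, p a - l a - (p b - l b) ≤ 1) ∧ l i - l j = 2 ∧ l i - l k < 2 := by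
    intro j k ij ik jk pj pk pa
    obtain ⟨l, hl, h1, h2⟩ := dir hC hF p (fun a => if a = j then -1 else if a = k then 1 else 0)
      fun a => by split_ifs <;> simp
    have n : l i - l k < 2 := lt_of_le_of_ne (by linarith [h1 k i]) fun e => by
      have := h2 k i (by linarith)
      simp [ij, ik, jk.symm] at this
      linarith
    refine ⟨l, hl, h1, ?_, n⟩
    obtain ⟨a, b, h⟩ := hP l hl fun e => by
      have := h2 i j (by simp [e, pi, pj])
      simp [ij, ik] at this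
      linarith
    have := h1 b a
    obtain rfl : a = i := by
      by_contra n
      by_cases e : a = j
      · linarith [bd b, e ▸ pj]
      by_cases f : a = k
      · linarith [bd b, f ▸ pk]
      linarith [bd b, pa a n e f]
    by_cases e : b = j
    · subst e; linarith
    by_cases f : b = k
    · subst f; linarith
    by_cases g : b = a
    · subst g; linarith
    linarith [pa b g e f]
  obtain ⟨l, hl, h1, h2, h3⟩ := T j k ij ik jk pj pk pa
  obtain ⟨m, hm, k1, k2, -⟩ := T k j ik ij jk.symm pk pj fun a x y z => pa a x z y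
  refine ⟨l, hl, h2, ?_, fun a x y z => ⟨lt_of_le_of_ne (by linarith [h1 a i]) fun e => ?_,
    lt_of_le_of_ne (by linarith [h1 j a]) fun e => ?_⟩⟩
  · by_contra n
    have n := lt_of_le_of_ne (show l k - l j ≤ 1 by linarith [h1 j k]) n
    obtain ⟨a, b, h⟩ := hP (l - m) (L.sub_mem hl hm) fun e => by
      rw [sub_eq_zero.1 e] at h3
      linarith
    simp only [Pi.sub_apply] at h
    have e1 := h1 b a
    have e2 := k1 a b
    have e3 := k1 k j
    obtain ⟨rfl | rfl | rfl, rfl | rfl | rfl⟩ := hg m hm a b (by linarith) <;> linarith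
  · simpa [x, y, z] using (hg l hl a i (by linarith)).1
  · simpa [x, y, z] using (hg l hl j a (by linarith)).2

theorem uniq [Fintype σ] [DecidableEq σ] (hP : ∀ l ∈ L, l ≠ 0 → ∃ a b, 2 ≤ l a - l b)
    (hC : ∀ y : σ → ℝ, ∃ l ∈ L, ∀ a b, y a - l a - (y b - l b) ≤ 1)
    (hF : ∀ y : σ → ℝ, {l | l ∈ L ∧ ∀ a b, y a - l a - (y b - l b) ≤ 2}.Finite)
    (hc : (L : Set (σ → ℝ)).Countable) {i j k : σ} (ij : i ≠ j) (ik : i ≠ k) (jk : j ≠ k) :
    ∃ l ∈ L, l i - l j = 2 ∧ ∀ a, a ≠ i → a ≠ j → l a - l j = 1 := by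
  have := hc.to_subtype
  let N := Fintype.card σ
  let x : σ → ℕ := fun a => Fintype.equivFin σ a
  obtain ⟨t, ⟨t0, t1⟩, ht⟩ : ∃ t ∈ Ioo (0 : ℝ) (1 / (N + 1)), t ∉ range
      fun u : L × σ × σ × ℤ × ℤ => (u.1.1 u.2.1 - u.1.1 u.2.2.1 + u.2.2.2.1) / u.2.2.2.2 := by
    by_contra n
    push Not at n
    have := (countable_range _).mono n
    rw [← Cardinal.le_aleph0_iff_set_countable, Cardinal.mk_Ioo_real (by positivity)] at this
    exact this.not_gt Cardinal.aleph0_lt_continuum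
  have q : ∀ a, 0 < (x a + 1 : ℝ) * t ∧ (x a + 1 : ℝ) * t < 1 := fun a => by
    have : (x a : ℝ) < N := by exact_mod_cast (Fintype.equivFin σ a).2
    rw [lt_div_iff₀ (by positivity)] at t1
    exact ⟨by positivity, by nlinarith⟩
  have R : ∀ k, i ≠ k → j ≠ k → ∃ l ∈ L, l i - l j = 2 ∧ l k - l j = 1 ∧ ∀ a, a ≠ i → a ≠ j → a ≠ k →
      (x a + 1 : ℝ) * t < l a - l j ∧ l a - l j < (x a + 1 : ℝ) * t + 1 := by
    intro k ik jk
    let m : σ → ℤ := fun a => if a = i ∨ a = j ∨ a = k then 0 else x a + 1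
    let n : σ → ℤ := fun a => if a = i then 1 else 0
    obtain ⟨l, hl, h1, h2, h3⟩ := ridge hP hC hF ij ik jk (fun a => n a + m a * t) (by simp [m, n])
      (by simp [m, n, ij.symm]) (by simp [m, n, ik.symm])
      (fun a u v w => by simpa [m, n, u, v, w] using q a) fun l hl a b e => by
        have : m a = m b := by
          by_contra c
          refine ht ⟨(⟨l, hl⟩, a, b, 1 - n a + n b, m a - m b), ?_⟩
          have : ((m a - m b : ℤ) : ℝ) ≠ 0 := by exact_mod_cast sub_ne_zero.2 c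
          rw [div_eq_iff this]
          push_cast
          linarith
        have ab : a ≠ b := by rintro rfl; simp at e
        have : x a ≠ x b := fun e => ab ((Fintype.equivFin σ).injective (Fin.ext e))
        simp only [m] at *
        split_ifs at * <;> first | omega | tauto
    exact ⟨l, hl, h1, h2, fun a u v w => by simpa [m, n, u, v, w] using h3 a u v w⟩
  obtain ⟨l, hl, h1, h2, h3⟩ := R k ik jk
  refine ⟨l, hl, h1, fun c ci cj => ?_⟩
  obtain ⟨m, hm, k1, k2, k3⟩ := R c ci.symm cj.symm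
  suffices l = m from this ▸ k2
  by_contra n
  obtain ⟨a, b, h⟩ := hP (l - m) (L.sub_mem hl hm) (sub_ne_zero.2 n)
  have D : ∀ a, -1 < l a - l j - (m a - m j) ∧ l a - l j - (m a - m j) < 1 := fun a => by
    by_cases u : a = i
    · subst u; constructor <;> linarith
    by_cases v : a = j
    · subst v; constructor <;> linarith
    by_cases w : a = k <;> by_cases z : a = c
    · subst w z; constructor <;> linarith
    · subst w; constructor <;> linarith [k3 a u v z, q a]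
    · subst z; constructor <;> linarith [h3 a u v w, q a]
    · constructor <;> linarith [h3 a u v w, k3 a u v z]
  simp only [Pi.sub_apply] at h
  linarith [D a, D b]

end Pool.Agent.H.MP_2a19ed_co
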