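import Pool.Agent.H.MP_2a19ed_co.A

namespace Pool.Agent.H.MP_2a19ed_co

open Set Filter Topology Matrix

variable {d : ℕ}

theorem det_lb {ε : ℝ} (hε : 0 < ε) : ∀ᶠ G : Fin d → Fin d → ℝ in 𝓝 0,
    1 + trace (of G) - ε * ‖G‖ ≤ (1 + of G).det := by
  have df : DifferentiableAt ℝ (fun G : Fin d → Fin d → ℝ => (1 + of G).det) 0 := by
    simp only [det_apply', Matrix.add_apply, of_apply]
    fun_prop
  have e : ∀ M, fderiv ℝ (fun G : Fin d → Fin d → ℝ => (1 + of G).det) 0 M = trace (of M) := by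
    intro M
    have h1 := df.hasFDerivAt.comp_hasDerivAt_of_eq (0 : ℝ)
      ((hasDerivAt_id (0 : ℝ)).smul_const M) (by simp)
    have h2 : HasDerivAt (fun r : ℝ => (1 + r • of M).det) (trace (of M)) 0 := by
      rw [funext fun r => det_one_add_smul r (of M)]
      exact ((((hasDerivAt_id' (0 : ℝ)).const_mul (trace (of M))).const_add 1).fun_add
        ((Polynomial.hasDerivAt _ 0).fun_mul (hasDerivAt_pow 2 0))).congr_deriv (by simp)
    simpa using h1.unique h2
  filter_upwards [df.hasFDerivAt.isLittleO.bound hε] with G h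
  simp only [sub_zero, e, of_zero, add_zero, det_one, Real.norm_eq_abs] at h
  linarith [(abs_le.1 h).1]

def hat {R : Type} [AddCommGroup R] (z : Fin d → R) : Option (Fin d) → R
  | none => -∑ i, z i
  | some i => z i

theorem hat_sum {R : Type} [AddCommGroup R] (z : Fin d → R) : ∑ a, hat z a = 0 := by
  simp [Fintype.sum_option, hat]

def hatL (d : ℕ) (a : Option (Fin d)) : (Fin d → ℝ) →ₗ[ℝ] ℝ where
  toFun z := hat z a
  map_add' x y := by cases a <;> simp [hat, Finset.sum_add_distrib, add_comm]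
  map_smul' c x := by cases a <;> simp [hat, Finset.mul_sum]

theorem hat_add (x y : Fin d → ℝ) (a) : hat (x + y) a = hat x a + hat y a := (hatL d a).map_add x y

theorem hat_sub (x y : Fin d → ℝ) (a) : hat (x - y) a = hat x a - hat y a := (hatL d a).map_sub x y

theorem hat_smul (c : ℝ) (x : Fin d → ℝ) (a) : hat (c • x) a = c * hat x a := (hatL d a).map_smul c x

@[fun_prop] theorem hat_cont (a : Option (Fin d)) : Continuous fun x : Fin d → ℝ => hat x a :=
  (hatL d a).continuous_of_finiteDimensional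

theorem hat_le (hd : 1 ≤ d) (x : Fin d → ℝ) (a) : |hat x a| ≤ d * ‖x‖ := by
  have : (1 : ℝ) ≤ d := by exact_mod_cast hd
  cases a with
  | none =>
    simp only [hat, abs_neg]
    refine (Finset.abs_sum_le_sum_abs _ _).trans ?_
    simpa using Finset.sum_le_card_nsmul Finset.univ _ _ fun i _ => norm_le_pi_norm x i
  | some i => exact (norm_le_pi_norm x i).trans (le_mul_of_one_le_left (norm_nonneg _) this)

def cs (z : Fin d → ℤ) : Fin d → ℝ := fun i => z i

theorem hat_cs (z : Fin d → ℤ) (a) : hat (cs z) a = (hat z a : ℤ) := by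
  cases a <;> simp [hat, cs]

def rt (a b : Option (Fin d)) : Fin d → ℤ :=
  fun i => (if some i = a then 1 else 0) - if some i = b then 1 else 0

theorem hat_rt (a b c : Option (Fin d)) :
    hat (rt a b) c = (if c = a then 1 else 0) - if c = b then 1 else 0 := by
  cases c <;> cases a <;> cases b <;> simp [hat, rt]

theorem pn {x : Option (Fin d) → ℤ} (h : ∑ a, x a = 0) (n : x ≠ 0) :
    (∃ a, 1 ≤ x a) ∧ ∃ b, x b ≤ -1 := by
  constructor <;> by_contra k <;> push Not at k <;> refine n (funext fun a => ?_)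
  · exact (Finset.sum_eq_zero_iff_of_nonpos fun a _ => by linarith [k a]).1 h a (Finset.mem_univ _)
  · exact (Finset.sum_eq_zero_iff_of_nonneg fun a _ => by linarith [k a]).1 h a (Finset.mem_univ _)

theorem hat_ne {z : Fin d → ℤ} (n : z ≠ 0) : hat z ≠ 0 := fun e =>
  n (funext fun i => congrFun e (some i))

theorem is_rt {z : Fin d → ℤ} (n : z ≠ 0) (h : ∀ a b, hat z a - hat z b ≤ 2)
    (k : ∀ a a' b b', a ≠ a' → b ≠ b' → hat z a + hat z a' - hat z b - hat z b' ≤ 3) :
    ∃ a b, a ≠ b ∧ z = rt a b := by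
  obtain ⟨⟨a, ha⟩, b, hb⟩ := pn (hat_sum z) (hat_ne n)
  have ab : a ≠ b := by rintro rfl; omega
  have := h a b
  refine ⟨a, b, ab, ?_⟩
  by_contra e
  obtain ⟨⟨u, hu⟩, v, hv⟩ := pn (x := hat z - hat (rt a b))
    (by simp only [Pi.sub_apply, Finset.sum_sub_distrib, hat_sum, sub_zero]) fun c => e (funext fun i =>
      sub_eq_zero.1 (congrFun c (some i)))
  simp only [Pi.sub_apply, hat_rt] at hu hv
  have := k a u b v (by rintro rfl; simp [ab] at hu; omega) (by rintro rfl; simp [ab.symm] at hv; omega)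
  have := h a v
  have := h u b
  split_ifs at hu hv <;> subst_vars <;> omega

def Qm (d : ℕ) : Matrix (Fin d) (Fin d) ℝ := 1 + of fun _ _ => 1

theorem sq_hat (x y : Fin d → ℝ) : ∑ a, hat x a * hat y a = x ⬝ᵥ Qm d *ᵥ y := by
  rw [Qm, add_mulVec, one_mulVec, dotProduct_add]
  simp [Fintype.sum_option, hat, mulVec, dotProduct, ← Finset.sum_mul, add_comm]

theorem cs_rt (a b : Option (Fin d)) (u : Option (Fin d) → ℝ) :
    ∑ c, hat (cs (rt a b)) c * u c = u a - u b := by
  simp only [hat_cs, hat_rt]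
  push_cast
  simp only [sub_mul, Finset.sum_sub_distrib, ite_mul, one_mul, zero_mul, Finset.sum_ite_eq',
    Finset.mem_univ, if_true]

theorem loc : ∀ᶠ E : Fin d → Fin d → ℝ in 𝓝 0, E ≠ 0 →
    (∀ a b, 0 ≤ hat (of E *ᵥ cs (rt a b)) a - hat (of E *ᵥ cs (rt a b)) b) →
      1 < |(1 + of E).det| := by
  let R : Matrix (Fin d) (Fin d) ℝ := 1 - of fun _ _ => 1 / (d + 1 : ℝ)
  have hR : ∀ (G : Matrix (Fin d) (Fin d) ℝ) i j, (R * G) i j = G i j - (∑ k, G k j) / (d + 1) := by
    intro G i j
    rw [sub_mul, Matrix.one_mul, Matrix.sub_apply, mul_apply, Finset.sum_div]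
    simp [div_eq_inv_mul]
  have RQ : R * Qm d = 1 := by
    ext i j
    simp [hR, Qm, Finset.sum_add_distrib, one_apply]
    field_simp
    ring
  let G : Matrix (Fin d) (Fin d) ℝ → Matrix (Fin d) (Fin d) ℝ :=
    fun E => (1 + E)ᵀ * Qm d * (1 + E) - Qm d
  have c : Tendsto (fun E => R * G E) (𝓝 0) (𝓝 0) :=
    Continuous.tendsto' (by unfold G; fun_prop) _ _ (by simp [G])
  filter_upwards [c.eventually (det_lb (ε := 1 / (4 * (d + 1))) (by positivity))] with E h n k
  have h : 1 + trace (R * G (of E)) - 1 / (4 * (d + 1)) * ‖of.symm (R * G (of E))‖ ≤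
    (1 + R * G (of E)).det := h
  have e : (1 + R * G (of E)).det = (1 + of E).det ^ 2 := by
    have := congrArg det RQ
    rw [mul_sub, RQ, add_sub_cancel]
    simp only [det_mul, det_transpose, det_one] at this ⊢
    linear_combination (1 + of E).det ^ 2 * this
  have key : ∀ a b, ∑ c, hat (of E *ᵥ cs (rt a b)) c * hat (of E *ᵥ cs (rt a b)) c ≤
      cs (rt a b) ⬝ᵥ G (of E) *ᵥ cs (rt a b) := fun a b => by
    have := k a b
    rw [← cs_rt a b] at this
    rw [sub_mulVec, dotProduct_sub, ← mulVec_mulVec, ← mulVec_mulVec, dotProduct_mulVec,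
      vecMul_transpose, ← sq_hat, ← sq_hat, add_mulVec, one_mulVec]
    simp only [hat_add, add_mul, mul_add, Finset.sum_add_distrib, mul_comm _ (hat (cs _) _)]
    linarith
  have sy : ∀ i j, G (of E) j i = G (of E) i j := fun i j => by
    have : (Qm d)ᵀ = Qm d := by ext i j; simp [Qm, one_apply, eq_comm]
    have : (G (of E))ᵀ = G (of E) := by simp [G, transpose_mul, this, Matrix.mul_assoc]
    exact congrFun (congrFun this i) j
  generalize G (of E) = g at *
  have r1 : ∀ i : Fin d, cs (rt (some i) none) = Pi.single i 1 := fun i => by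
    ext j; simp [cs, rt, Pi.single_apply]
  have r2 : ∀ i j : Fin d, cs (rt (some i) (some j)) = Pi.single i 1 - Pi.single j 1 := fun i j => by
    ext j; simp [cs, rt, Pi.single_apply]
  have nn : ∀ a b, 0 ≤ cs (rt a b) ⬝ᵥ g *ᵥ cs (rt a b) := fun a b =>
    (Finset.sum_nonneg fun _ _ => mul_self_nonneg _).trans (key a b)
  have d1 : ∀ i, 0 ≤ g i i := fun i => by simpa [r1] using nn (some i) none
  have d2 : ∀ i j, 0 ≤ g i i + g j j - 2 * g i j := fun i j => by
    have := nn (some i) (some j)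
    simp [r2, mulVec_sub, sy i j] at this
    linarith
  have a1 : ∀ i, g i i ≤ ∑ i, g i i := fun i =>
    Finset.single_le_sum (fun i _ => d1 i) (Finset.mem_univ i)
  have a2 : ∀ i j, g i i + g j j - 2 * g i j ≤ ∑ i, ∑ j, (g i i + g j j - 2 * g i j) := fun i j =>
    (Finset.single_le_sum (fun j _ => d2 i j) (Finset.mem_univ j)).trans (Finset.single_le_sum
      (fun i _ => Finset.sum_nonneg fun j _ => d2 i j) (Finset.mem_univ i))
  obtain ⟨T, hT⟩ : ∃ T, T = (d + 1) * trace (R * g) := ⟨_, rfl⟩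
  have a3 : T = ∑ i, g i i + (∑ i, ∑ j, (g i i + g j j - 2 * g i j)) / 2 := by
    simp only [hT, trace, diag, hR, Finset.sum_sub_distrib, Finset.sum_add_distrib, ← Finset.sum_div,
      ← Finset.mul_sum, Finset.sum_const, Finset.card_univ, Fintype.card_fin, nsmul_eq_mul, sy]
    field_simp
    ring
  have a4 : ∀ i j, |g i j| ≤ T := fun i j =>
    abs_le.2 ⟨by linarith [a1 i, a2 i j, d1 i, d1 j], by linarith [a1 i, a1 j, a2 i j, d2 i j]⟩
  have T0 : 0 < T := by
    obtain ⟨i, j, n⟩ : ∃ i j, E i j ≠ 0 := by simpa [funext_iff] using n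
    have := (Finset.single_le_sum (fun _ _ => mul_self_nonneg _) (Finset.mem_univ (some i))).trans
      (key (some j) none)
    simp [r1, hat] at this
    linarith [mul_self_pos.2 n, le_abs_self (g j j), a4 j j]
  have a5 : ‖of.symm (R * g)‖ ≤ 2 * T := by
    refine (pi_norm_le_iff_of_nonneg (by positivity)).2 fun i =>
      (pi_norm_le_iff_of_nonneg (by positivity)).2 fun j => ?_
    have : |(∑ k, g k j) / (d + 1)| ≤ T := by
      rw [abs_div, abs_of_pos (by positivity : (0 : ℝ) < d + 1), div_le_iff₀ (by positivity)]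
      have := (Finset.abs_sum_le_sum_abs _ _).trans
        (Finset.sum_le_card_nsmul Finset.univ _ _ fun k _ => a4 k j)
      simp at this
      linarith
    rw [of_symm_apply, hR, Real.norm_eq_abs]
    exact (abs_sub _ _).trans (by linarith [a4 i j])
  have t : trace (R * g) = 4 * (1 / (4 * (d + 1)) * T) := by rw [hT]; field_simp
  have := mul_le_mul_of_nonneg_left a5 (show (0 : ℝ) ≤ 1 / (4 * (d + 1)) by positivity)
  have : 0 < 1 / (4 * (d + 1 : ℝ)) * T := by positivity
  rw [← one_lt_sq_iff₀ (abs_nonneg _), sq_abs]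
  linarith

end Pool.Agent.H.MP_2a19ed_co
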