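import Pool.Agent.H.MP_2a19ed_co.B

namespace Pool.Agent.H.MP_2a19ed_co

open Set Filter Topology Matrix MeasureTheory Metric
open scoped Pointwise

variable {d : ℕ}

def Rg (d : ℕ) (t : ℝ) : Set (Fin d → ℝ) := {z | ∀ a b, hat z a - hat z b ≤ t}

theorem Rg_closed (t : ℝ) : IsClosed (Rg d t) := by
  simp only [Rg, ofPred_forall]
  exact isClosed_iInter fun a => isClosed_iInter fun b => isClosed_le (by fun_prop) continuous_const

theorem zl (x : (Submodule.span ℤ (range (Pi.basisFun ℝ (Fin d)))).toAddSubgroup) :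
    ∃ z, x.1 = cs z := by
  choose z hz using ((Pi.basisFun ℝ (Fin d)).mem_span_iff_repr_mem ℤ x.1).1 x.2
  exact ⟨z, funext fun i => (hz i).symm⟩

theorem cs_sub (x y : Fin d → ℤ) : cs (x - y) = cs x - cs y := by ext; simp [cs]

theorem cs_add (x y : Fin d → ℤ) : cs (x + y) = cs x + cs y := by ext; simp [cs]

theorem cs_zero : cs (0 : Fin d → ℤ) = 0 := by ext; simp [cs]

theorem cover (x : Fin d → ℝ) : ∃ z, x - cs z ∈ Rg d 1 := by
  let q : (Fin d → ℤ) → ℝ := fun z => ∑ a, hat (x - cs z) a * hat (x - cs z) a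
  obtain ⟨z, hz, h⟩ := exists_min_image {z | q z ≤ q 0} q ((finite_Icc (fun i => ⌊x i - (q 0 + 1)⌋)
    fun i => ⌈x i + (q 0 + 1)⌉).subset fun z hz => by
      have : ∀ i, |x i - z i| ≤ q 0 + 1 := fun i => by
        have : (x i - z i) * (x i - z i) ≤ q 0 := (Finset.single_le_sum
          (f := fun a => hat (x - cs z) a * hat (x - cs z) a) (fun _ _ => mul_self_nonneg _)
          (Finset.mem_univ (some i))).trans hz
        exact abs_le.2 ⟨by nlinarith, by nlinarith⟩
      exact ⟨fun i => Int.floor_le_iff.2 (by linarith [abs_le.1 (this i)]),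
        fun i => Int.le_ceil_iff.2 (by linarith [abs_le.1 (this i)])⟩) ⟨0, le_refl (q 0)⟩
  refine ⟨z, fun a b => ?_⟩
  have k : q z ≤ q (z + rt a b) := by
    by_contra n
    exact n (h _ ((not_le.1 n).le.trans hz))
  have e1 := cs_rt a b (hat (x - cs z))
  have e2 := cs_rt a b (hat (cs (rt a b)))
  have e3 : hat (cs (rt a b)) a - hat (cs (rt a b)) b ≤ 2 := by
    simp only [hat_cs, hat_rt]
    split_ifs <;> norm_num
  simp only [q, cs_add, ← sub_sub, hat_sub _ (cs (rt a b)), sub_mul, mul_sub, Finset.sum_sub_distrib,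
    mul_comm _ (hat (cs (rt a b)) _)] at k
  linarith

theorem fund : IsAddFundamentalDomain (Submodule.span ℤ (range (Pi.basisFun ℝ (Fin d)))).toAddSubgroup
    (ZSpan.fundamentalDomain (Pi.basisFun ℝ (Fin d))) volume ∧
    volume (ZSpan.fundamentalDomain (Pi.basisFun ℝ (Fin d))) = 1 :=
  ⟨ZSpan.isAddFundamentalDomain' _ _, by
    simp [ZSpan.fundamentalDomain_pi_basisFun, volume_pi_pi]⟩

theorem cnt : Countable (Submodule.span ℤ (range (Pi.basisFun ℝ (Fin d)))).toAddSubgroup :=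
  inferInstanceAs (Countable (Submodule.span ℤ (range (Pi.basisFun ℝ (Fin d)))))

theorem vol_Rg {s : ℝ} (hs : 0 ≤ s) : ENNReal.ofReal (s ^ d) ≤ volume (Rg d s) := by
  have := cnt (d := d)
  have h : 1 ≤ volume (Rg d 1) := by
    rw [fund.1.measure_eq_tsum, ← fund.2]
    refine (measure_mono fun x hx => ?_).trans (measure_iUnion_le _)
    obtain ⟨z, hz⟩ := cover x
    exact mem_iUnion.2 ⟨⟨cs z, ((Pi.basisFun ℝ (Fin d)).mem_span_iff_repr_mem ℤ _).2 fun i => ⟨z i, rfl⟩⟩,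
      ⟨_, hz, add_sub_cancel _ _⟩, hx⟩
  refine le_trans ?_ (measure_mono (s := s • Rg d 1) ?_)
  · rw [Measure.addHaar_smul_of_nonneg _ hs, Module.finrank_fin_fun]
    exact le_mul_of_one_le_right' h
  · rintro _ ⟨x, hx, rfl⟩ a b
    simp only [hat_smul, ← mul_sub]
    exact mul_le_of_le_one_right hs (hx a b)

theorem blich {B : Matrix (Fin d) (Fin d) ℝ} (hB : B.det ≠ 0) {S : Set (Fin d → ℝ)}
    (hS : MeasurableSet S) (h : ENNReal.ofReal |B.det| < volume S) :
    ∃ z ≠ 0, ∃ x ∈ S, ∃ y ∈ S, x - y = B *ᵥ cs z := by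
  have := cnt (d := d)
  obtain ⟨x, y, n, k⟩ := exists_pair_mem_lattice_not_disjoint_vadd fund.1 (s := toLin' B ⁻¹' S)
    (hS.preimage (toLin' B).continuous_of_finiteDimensional.measurable).nullMeasurableSet (by
      rw [fund.2, Measure.addHaar_preimage_linearMap _ (by rwa [LinearMap.det_toLin']),
        LinearMap.det_toLin', abs_inv, ENNReal.ofReal_inv_of_pos (abs_pos.2 hB),
        ← ENNReal.div_eq_inv_mul, ENNReal.lt_div_iff_mul_lt (by simp) (by simp), one_mul]
      exact h)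
  obtain ⟨_, ⟨u, hu, rfl⟩, v, hv, e⟩ := not_disjoint_iff.1 k
  obtain ⟨z, hz⟩ := zl (y - x)
  have e : y.1 + v = x.1 + u := e
  refine ⟨z, fun c => n (sub_eq_zero.1 (Subtype.ext (by rw [hz, c, cs_zero]; rfl))).symm, _, hu, _, hv, ?_⟩
  rw [toLin'_apply, toLin'_apply, ← mulVec_sub, ← hz]
  congr 1
  simp only [AddSubgroupClass.coe_sub]
  linear_combination -e

def Adm (B : Matrix (Fin d) (Fin d) ℝ) (t : ℝ) : Prop :=
  ∀ z ≠ 0, ∃ a b, 2 * t ≤ hat (B *ᵥ cs z) a - hat (B *ᵥ cs z) b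

theorem pack {B : Matrix (Fin d) (Fin d) ℝ} (hB : B.det ≠ 0) {t s : ℝ} (h : Adm B t) (s0 : 0 ≤ s)
    (st : s < t) : s ^ d ≤ |B.det| := by
  by_contra n
  obtain ⟨z, hz, x, hx, y, hy, e⟩ := blich hB (Rg_closed s).measurableSet
    (((ENNReal.ofReal_lt_ofReal_iff_of_nonneg (abs_nonneg _)).2 (not_le.1 n)).trans_le (vol_Rg s0))
  obtain ⟨a, b, k⟩ := h z hz
  simp only [← e, hat_sub] at k
  linarith [hx a b, hy b a]

theorem cov (hd : 1 ≤ d) {B : Matrix (Fin d) (Fin d) ℝ} (hB : B.det ≠ 0) {t s ρ : ℝ} (h : Adm B t)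
    (s0 : 0 ≤ s) (st : s < t) (r0 : 0 < ρ) (r1 : 2 * d * ρ < t) (k : |B.det| < s ^ d + (2 * ρ) ^ d)
    (y : Fin d → ℝ) : ∃ z, y - B *ᵥ cs z ∈ Rg d (s + 2 * d * ρ) := by
  have H : ∀ w ∈ ball y ρ, ∀ a, |hat w a - hat y a| ≤ d * ρ := fun w hw a => by
    rw [← hat_sub]
    exact (hat_le hd _ a).trans (mul_le_mul_of_nonneg_left (mem_ball_iff_norm.1 hw).le d.cast_nonneg)
  by_cases c : Disjoint (Rg d s) (ball y ρ)
  · obtain ⟨z, hz, u, hu, v, hv, e⟩ := blich hB ((Rg_closed s).measurableSet.union measurableSet_ball)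
      (S := Rg d s ∪ ball y ρ) (by
        rw [measure_union c measurableSet_ball, Real.volume_pi_ball _ r0, Fintype.card_fin]
        refine lt_of_lt_of_le ?_ (add_le_add (vol_Rg s0) le_rfl)
        rw [← ENNReal.ofReal_add (by positivity) (by positivity)]
        exact (ENNReal.ofReal_lt_ofReal_iff_of_nonneg (abs_nonneg _)).2 k)
    obtain ⟨a, b, l⟩ := h z hz
    simp only [← e, hat_sub] at l
    rcases hu with hu | hu <;> rcases hv with hv | hv
    · linarith [hu a b, hv b a]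
    · refine ⟨0 - z, fun a b => ?_⟩
      simp only [cs_sub, cs_zero, mulVec_sub, mulVec_zero, ← e, hat_sub]
      linarith [hu a b, abs_le.1 (H v hv a), abs_le.1 (H v hv b), (hatL d a).map_zero,
        (hatL d b).map_zero, show hat 0 a = hatL d a 0 from rfl, show hat 0 b = hatL d b 0 from rfl]
    · refine ⟨z, fun a b => ?_⟩
      simp only [← e, hat_sub]
      linarith [hv a b, abs_le.1 (H u hu a), abs_le.1 (H u hu b)]
    · linarith [abs_le.1 (H u hu a), abs_le.1 (H u hu b), abs_le.1 (H v hv a), abs_le.1 (H v hv b)]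
  · obtain ⟨u, hu, hv⟩ := not_disjoint_iff.1 c
    refine ⟨0, fun a b => ?_⟩
    simp only [cs_zero, mulVec_zero, sub_zero]
    linarith [hu a b, abs_le.1 (H u hv a), abs_le.1 (H u hv b)]

theorem Rg_norm {t : ℝ} {x : Fin d → ℝ} (h : x ∈ Rg d t) : ‖x‖ ≤ t := by
  have t0 : 0 ≤ t := by simpa using h none none
  have : ∀ a, |hat x a| ≤ t := fun a => by
    have h1 := Finset.sum_le_card_nsmul Finset.univ _ _ fun b _ => h a b
    have h2 := Finset.sum_le_card_nsmul Finset.univ _ _ fun b _ => h b a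
    simp only [Finset.sum_sub_distrib, hat_sum, Finset.sum_const, nsmul_eq_mul, Finset.card_univ,
      Fintype.card_option, Fintype.card_fin] at h1 h2
    have : (0 : ℝ) < (d + 1 : ℕ) := by positivity
    exact abs_le.2 ⟨by nlinarith, by nlinarith⟩
  exact (pi_norm_le_iff_of_nonneg t0).2 fun i => this (some i)

end Pool.Agent.H.MP_2a19ed_co
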