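import Pool.Agent.H.MP_2a19ed_co.C

namespace Pool.Agent.H.MP_2a19ed_co

open Set Filter Topology Matrix Metric

variable {d : ℕ}

theorem cov' (hd : 1 ≤ d) {δ : ℝ} (hδ : 0 < δ) : ∀ᶠ κ in 𝓝[>] (0 : ℝ),
    ∀ B : Matrix (Fin d) (Fin d) ℝ, B.det ≠ 0 → |B.det| ≤ 1 + κ → Adm B (1 - κ) →
      1 - δ ≤ |B.det| ∧ ∀ y, ∃ z, y - B *ᵥ cs z ∈ Rg d (1 + δ) := by
  obtain ⟨ρ, r0, e⟩ : ∃ ρ : ℝ, 0 < ρ ∧ 2 * d * ρ = min δ (1 / 2) :=
    ⟨min δ (1 / 2) / (2 * d), by positivity, by field_simp⟩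
  have c : ContinuousAt (fun κ : ℝ => (1 - 2 * κ) ^ d) 0 := by fun_prop
  filter_upwards [Ioo_mem_nhdsGT (show (0 : ℝ) < 1 / 2 by norm_num),
    nhdsWithin_le_nhds (ContinuousAt.eventually_lt (f := fun κ => 1 + κ)
      (g := fun κ => (1 - 2 * κ) ^ d + (2 * ρ) ^ d) (by fun_prop) (by fun_prop)
      (by simp; positivity)),
    nhdsWithin_le_nhds (continuousAt_const.eventually_lt (f := fun _ => 1 - δ) c (by simpa))]
    with κ ⟨k0, k1⟩ k2 k3 B hB h1 h2
  refine ⟨k3.le.trans (pack hB h2 (by linarith) (by linarith)), fun y => ?_⟩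
  obtain ⟨z, hz⟩ := cov hd hB h2 (s := 1 - 2 * κ) (by linarith) (by linarith) r0
    (by linarith [min_le_right δ (1 / 2)]) (h1.trans_lt k2) y
  exact ⟨z, fun a b => by linarith [hz a b, min_le_left δ (1 / 2)]⟩

theorem unhat (y : Option (Fin d) → ℝ) : ∃ x : Fin d → ℝ, ∃ m, ∀ a, y a = hat x a + m := by
  refine ⟨fun i => y (some i) - (∑ a, y a) / (d + 1), (∑ a, y a) / (d + 1), fun a => ?_⟩
  cases a <;> simp [hat, Fintype.sum_option]
  field_simp
  ring

theorem stab (hd : 2 ≤ d) {η : ℝ} (hη : 0 < η) : ∀ᶠ κ in 𝓝[>] (0 : ℝ),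
    ∀ B : Matrix (Fin d) (Fin d) ℝ, B.det ≠ 0 → |B.det| ≤ 1 + κ → Adm B (1 - κ) →
      ∃ U : Matrix (Fin d) (Fin d) ℤ, |U.det| = 1 ∧
        ‖of.symm (B * U.map (↑)) - of.symm 1‖ < η := by
  have h1 : 1 ≤ d := by omega
  by_contra n
  choose κ k1 k2 k3 using fun m : ℕ => ((not_eventually.1 n).and_eventually
    ((cov' h1 (Nat.one_div_pos_of_nat (n := m))).and
      (Ioo_mem_nhdsGT (Nat.one_div_pos_of_nat (n := m))))).exists
  push Not at k1
  choose B b1 b2 b3 b4 using k1
  let u : Filter ℕ := hyperfilter ℕ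
  have t0 : Tendsto (fun m : ℕ => 1 / ((m : ℝ) + 1)) u (𝓝 0) :=
    tendsto_one_div_add_atTop_nhds_zero_nat.mono_left Nat.hyperfilter_le_atTop
  let L : AddSubgroup (Fin d → ℝ) :=
    { carrier := {x | ∃ z : ℕ → Fin d → ℤ, Tendsto (fun m => B m *ᵥ cs (z m)) u (𝓝 x)}
      zero_mem' := ⟨0, by simp [cs_zero]⟩
      add_mem' := fun ⟨z, hz⟩ ⟨w, hw⟩ => ⟨z + w, by simpa [cs_add, mulVec_add] using hz.add hw⟩
      neg_mem' := fun ⟨z, hz⟩ => ⟨0 - z, by
        simp only [Pi.sub_apply, Pi.zero_apply, cs_sub, cs_zero]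
        simpa only [zero_sub, mulVec_neg] using hz.neg⟩ }
  have hP : ∀ x ∈ L, x ≠ 0 → ∃ a b, 2 ≤ hat x a - hat x b := by
    rintro x ⟨z, hz⟩ n
    by_contra k
    push Not at k
    obtain ⟨m, m1, m2⟩ := ((hz.eventually_ne n).and (eventually_all.2 fun a => eventually_all.2 fun b =>
      (((hat_cont a).sub (hat_cont b)).tendsto x |>.comp hz).eventually_lt
        ((t0.const_sub 1).const_mul 2) (by simpa using k a b))).exists
    obtain ⟨a, b, h⟩ := b3 m (z m) fun e => m1 (by rw [e, cs_zero, mulVec_zero])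
    have : hat (B m *ᵥ cs (z m)) a - hat (B m *ᵥ cs (z m)) b < _ := m2 a b
    linarith [(k3 m).2]
  have hC : ∀ y, ∃ x ∈ L, y - x ∈ Rg d 1 := fun y => by
    choose z hz using fun m => (k2 m _ (b1 m) (b2 m) (b3 m)).2 y
    obtain ⟨x, -, hx⟩ := (isCompact_closedBall y 2).ultrafilter_le_nhds'
      ((hyperfilter ℕ).map fun m => B m *ᵥ cs (z m)) (mem_map.2 (Eventually.of_forall fun m =>
        mem_closedBall_iff_norm'.2 ((Rg_norm (hz m)).trans (by
          linarith [Nat.one_div_le_one_div (α := ℝ) (Nat.zero_le m)]))))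
    exact ⟨x, ⟨z, hx⟩, fun a b => le_of_tendsto_of_tendsto'
      ((((hat_cont a).sub (hat_cont b)).tendsto _).comp (Tendsto.const_sub y hx))
      (by simpa using t0.const_add 1) fun m => hz m a b⟩
  have hD : IsDiscrete (L : Set (Fin d → ℝ)) := by
    refine ⟨show DiscreteTopology L from discreteTopology_of_isOpen_singleton_zero
      (Metric.isOpen_singleton_iff.2 ⟨1 / d, by positivity, fun x hx => ?_⟩)⟩
    by_contra n
    obtain ⟨a, b, h⟩ := hP x x.2 fun e => n (Subtype.ext e)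
    have hx : ‖x.1‖ < 1 / d := by simpa using hx
    rw [lt_div_iff₀' (by positivity)] at hx
    linarith [abs_le.1 (hat_le h1 x.1 a), abs_le.1 (hat_le h1 x.1 b)]
  have H : ∀ i : Fin d, Pi.single i 1 ∈ L := fun i => by
    have := Fin.nontrivial_iff_two_le.2 hd
    obtain ⟨k, hk⟩ := exists_ne i
    obtain ⟨_, ⟨x, hx, rfl⟩, e1, e2⟩ := uniq (L := L.map (LinearMap.pi (hatL d)).toAddMonoidHom)
      (i := some i) (j := none) (k := some k)
      (by rintro _ ⟨x, hx, rfl⟩ n; exact hP x hx fun e => n (by simp [e]))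
      (fun y => by
        obtain ⟨y, m, e⟩ := unhat y
        obtain ⟨x, hx, h⟩ := hC y
        exact ⟨_, ⟨x, hx, rfl⟩, fun a b => by
          have := h a b
          rw [hat_sub, hat_sub] at this
          show _ - hat x a - (_ - hat x b) ≤ _
          linarith [e a, e b]⟩)
      (fun y => by
        obtain ⟨y, m, e⟩ := unhat y
        refine (((L.tendsto_coe_cofinite_of_discrete hD) (isCompact_closedBall y 2).compl_mem_cocompact).image
          fun x => hat x.1).subset ?_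
        rintro _ ⟨⟨x, hx, rfl⟩, h⟩
        refine ⟨⟨x, hx⟩, fun n => n (mem_closedBall_iff_norm'.2 (Rg_norm fun a b => ?_)), rfl⟩
        have : _ - hat x a - (_ - hat x b) ≤ _ := h a b
        rw [hat_sub, hat_sub]
        linarith [e a, e b])
      (((HereditarilyLindelofSpace.isLindelof _).countable_of_isDiscrete hD).image _)
      (by simp) (by simpa using hk.symm) (by simp)
    have e1 : x i - hat x none = 2 := e1
    have e2 : ∀ j ≠ i, x j - hat x none = 1 := fun j hj => e2 (some j) (by simpa) (by simp)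
    have e3 : ∀ j, x j = Pi.single (M := fun _ => ℝ) i 1 j + (hat x none + 1) := fun j => by
      by_cases c : j = i
      · simp [c]; linarith
      · simp [c]; linarith [e2 j c]
    have e4 : (d + 1) * (hat x none + 1) = 0 := by
      have := Finset.sum_congr rfl fun j (_ : j ∈ Finset.univ) => e3 j
      simp [Finset.sum_add_distrib] at this
      have e : hat x none = -∑ j, x j := rfl
      linarith
    rwa [show Pi.single i 1 = x from funext fun j => by
      rw [e3 j, (mul_eq_zero.1 e4).resolve_left (by positivity), add_zero]]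
  choose z hz using H
  let U : ℕ → Matrix (Fin d) (Fin d) ℤ := fun m => of fun i j => z j m i
  have tU : Tendsto (fun m => B m * (U m).map (↑)) u (𝓝 1) :=
    tendsto_pi_nhds.2 fun i => tendsto_pi_nhds.2 fun j => by
      rw [one_apply, ← Pi.single_apply]
      exact tendsto_pi_nhds.1 (hz j) i
  have tD : Tendsto (fun m => |(B m).det| * |((U m).det : ℝ)|) u (𝓝 1) := by
    simpa [Function.comp_def, det_mul, Int.cast_det] using
      ((continuous_id.matrix_det.abs).tendsto _).comp tU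
  obtain ⟨m, m1, m2, m3, m4⟩ := ((Metric.tendsto_nhds.1 (show Tendsto (fun m => of.symm
    (B m * (U m).map (↑))) u (𝓝 (of.symm 1)) from tU) η hη).and ((tD.eventually_const_lt one_pos).and
      ((tD.eventually_lt_const (show (1 : ℝ) < 4 / 3 by norm_num)).and
        (t0.eventually_lt_const (show (0 : ℝ) < 1 / 3 by norm_num))))).exists
  refine (b4 m (U m) ?_).not_gt (by rwa [dist_eq_norm] at m1)
  have := (k2 m _ (b1 m) (b2 m) (b3 m)).1
  have a1 : (0 : ℝ) < |(U m).det| := by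
    rw [Int.cast_abs]
    exact pos_of_mul_pos_right m2 (abs_nonneg _)
  have a2 : (|(U m).det| : ℤ) < (2 : ℝ) := by
    rw [Int.cast_abs]
    nlinarith [abs_nonneg ((U m).det : ℝ)]
  norm_cast at a1 a2
  omega

end Pool.Agent.H.MP_2a19ed_co
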