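import Pool.Agent.H.MP_2a19ed_co.D

namespace Pool.Agent.H.MP_2a19ed_co

open Set Filter Topology Matrix Metric

variable {d : ℕ}

theorem qloc {θ : ℝ} (hθ : 0 < θ) : ∃ η > 0, η ≤ θ ∧
    (∀ E : Fin d → Fin d → ℝ, ‖E‖ ≤ η → (1 + of E).det ≠ 0) ∧ ∀ η' > 0, ∃ γ > 0,
      ∀ E : Fin d → Fin d → ℝ, ‖E‖ ≤ η →
        (∀ a b, -γ ≤ hat (of E *ᵥ cs (rt a b)) a - hat (of E *ᵥ cs (rt a b)) b) →
        |(1 + of E).det| ≤ 1 + γ → ‖E‖ < η' := by
  have c : Continuous fun E : Fin d → Fin d → ℝ => (1 + of E).det :=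
    (continuous_const.add continuous_id).matrix_det
  have c2 : ∀ v a, Continuous fun E : Fin d → Fin d → ℝ => hat (of E *ᵥ v) a := fun v a =>
    (hat_cont a).comp (continuous_id.matrix_mulVec continuous_const)
  obtain ⟨η, η0, h⟩ := nhds_basis_closedBall.mem_iff.1 (loc.and (c.continuousAt.eventually_ne
    (y := 0) (by simp)))
  refine ⟨min η θ, by positivity, min_le_right _ _, fun E hE =>
    (h (mem_closedBall_zero_iff.2 (hE.trans (min_le_left _ _)))).2, fun η' h0 => ?_⟩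
  obtain ⟨γ, γ0, k⟩ := ((isCompact_closedBall 0 η).diff (isOpen_ball (x := 0) (ε := η'))).exists_forall_le'
    (f := fun E : Fin d → Fin d → ℝ => ‖fun p : Option (Fin d) × Option (Fin d) => max 0 (max
      (|(1 + of E).det| - 1) (hat (of E *ᵥ cs (rt p.1 p.2)) p.2 - hat (of E *ᵥ cs (rt p.1 p.2)) p.1))‖)
    (a := 0) (Continuous.continuousOn (by fun_prop)) fun E hE => norm_pos_iff.2 fun e => by
      have k := fun p => max_le_iff.1 (max_eq_left_iff.1 (congrFun e p))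
      linarith [(h hE.1).1 (fun n => hE.2 (by simpa [n])) (fun a b => by linarith [(k (a, b)).2]),
        (k (none, none)).1]
  refine ⟨γ / 2, by positivity, fun E h1 h2 h3 => ?_⟩
  by_contra n
  refine (k E ⟨mem_closedBall_zero_iff.2 (h1.trans (min_le_left _ _)),
    fun e => n (mem_ball_zero_iff.1 e)⟩).not_gt ((pi_norm_lt_iff γ0).2 fun p => ?_)
  rw [Real.norm_of_nonneg (le_max_left _ _)]
  exact max_lt γ0 (max_lt (by linarith) (by linarith [h2 p.1 p.2]))

theorem mv_le (E : Fin d → Fin d → ℝ) (x : Fin d → ℝ) : ‖of E *ᵥ x‖ ≤ d * ‖E‖ * ‖x‖ := by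
  refine (pi_norm_le_iff_of_nonneg (by positivity)).2 fun i =>
    (norm_sum_le Finset.univ fun j => E i j * x j).trans ?_
  simpa [mul_assoc] using Finset.sum_le_card_nsmul Finset.univ _ _ fun j _ => (norm_mul_le _ _).trans
    (mul_le_mul ((norm_le_pi_norm (E i) j).trans (norm_le_pi_norm E i)) (norm_le_pi_norm x j)
      (norm_nonneg _) (norm_nonneg _))

def In (c t : ℝ) (z : Fin d → ℝ) : Prop := (∀ a b, hat z a - hat z b ≤ 2 * t) ∧
  ∀ a a' b b', a ≠ a' → b ≠ b' → hat z a + hat z a' - hat z b - hat z b' ≤ c * t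

theorem rt_in {a b : Option (Fin d)} {x : Fin d → ℝ} {c t : ℝ} (h : ∀ c, |hat x c| ≤ 1 / 10)
    (k : hat x a - hat x b ≤ 2 * t - 2) (t0 : 2 / 3 ≤ t) (c0 : 5 / 2 ≤ c * t) :
    In c t (cs (rt a b) + x) := by
  have r : ∀ u v, u ≠ v → hat (cs (rt a b)) u + hat (cs (rt a b)) v ≤ 1 ∧
      -1 ≤ hat (cs (rt a b)) u + hat (cs (rt a b)) v := fun u v n => by
    simp only [hat_cs, hat_rt]
    split_ifs <;> subst_vars <;> simp at n ⊢
  refine ⟨fun u v => ?_, fun u u' v v' hu hv => ?_⟩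
  · have := abs_le.1 (h u)
    have := abs_le.1 (h v)
    simp only [hat_add, hat_cs, hat_rt]
    split_ifs <;> subst_vars <;> push_cast <;> linarith
  · simp only [hat_add]
    linarith [abs_le.1 (h u), abs_le.1 (h v), abs_le.1 (h u'), abs_le.1 (h v'), r u u' hu, r v v' hv]

theorem sm (h1 : 1 ≤ d) (E : Fin d → Fin d → ℝ) (x a) : |hat (of E *ᵥ x) a| ≤ d * d * ‖E‖ * ‖x‖ :=
  (hat_le h1 _ a).trans (by
    linarith [mul_le_mul_of_nonneg_left (mv_le E x) (d.cast_nonneg (α := ℝ))])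

theorem kiss (hd : 1 ≤ d) {E : Fin d → Fin d → ℝ} {z : Fin d → ℤ} {c t κ : ℝ} (n : z ≠ 0)
    (h : In c t ((1 + of E) *ᵥ cs z)) (hE : d * d * ‖E‖ ≤ κ / 32) (k : κ < 1 / 4) (ht : t ≤ 5 / 4)
    (hc : c * t < 4 - κ / 2) : ∃ a b, a ≠ b ∧ z = rt a b := by
  obtain ⟨h1, h2⟩ := h
  have d1 : (1 : ℝ) ≤ d := by exact_mod_cast hd
  have b1 : ‖(1 + of E) *ᵥ cs z‖ ≤ 3 := Rg_norm fun a b => by linarith [h1 a b]
  have b2 : ‖cs z‖ ≤ 4 := by
    have := norm_sub_le ((1 + of E) *ᵥ cs z) (of E *ᵥ cs z)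
    rw [add_mulVec, one_mulVec, add_sub_cancel_right] at this
    rw [add_mulVec, one_mulVec] at b1
    have : d * ‖E‖ ≤ 1 / 10 := by nlinarith [show 0 ≤ d * ‖E‖ by positivity]
    nlinarith [mv_le E (cs z), norm_nonneg (cs z)]
  have t : ∀ c, |hat (of E *ᵥ cs z) c| ≤ κ / 8 := fun c => (sm hd E _ c).trans (by
    nlinarith [show 0 ≤ d * d * ‖E‖ by positivity])
  simp only [add_mulVec, one_mulVec, hat_add, hat_cs] at h1 h2
  exact is_rt n (fun a b => Int.le_of_lt_add_one (Int.cast_lt (R := ℝ).1 (by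
      push_cast; linarith [h1 a b, abs_le.1 (t a), abs_le.1 (t b)])))
    fun a a' b b' ha hb => Int.le_of_lt_add_one (Int.cast_lt (R := ℝ).1 (by
      push_cast
      linarith [h2 a a' b b' ha hb, abs_le.1 (t a), abs_le.1 (t b), abs_le.1 (t a'), abs_le.1 (t b')]))

theorem core (hd : 2 ≤ d) : ∃ c ε : ℝ, 3 ≤ c ∧ 0 < ε ∧ ε < 1 ∧ ∀ K : Set (Fin d → ℝ),
    (∀ z, In c (1 - ε) z → z ∈ interior K) → (∀ z ∈ K, In c (1 + ε) z) →
    ∃ A : Matrix (Fin d) (Fin d) ℝ, A.det ≠ 0 ∧ (∀ z ≠ 0, A *ᵥ cs z ∉ interior K) ∧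
      (∀ B : Matrix (Fin d) (Fin d) ℝ, B.det ≠ 0 → (∀ z ≠ 0, B *ᵥ cs z ∉ interior K) →
        |A.det| ≤ |B.det|) ∧ {v | v ≠ 0 ∧ v ∈ K ∧ ∃ z, v = A *ᵥ cs z}.ncard < 2 * d ^ 2 := by
  have h1 : 1 ≤ d := by omega
  have d1 : (1 : ℝ) ≤ d := by exact_mod_cast h1
  obtain ⟨η, η0, η1, hη, q⟩ := qloc (d := d) (θ := 1 / (10 * d * d)) (by positivity)
  obtain ⟨κ, S, k0, k1⟩ := ((stab hd η0).and (Ioo_mem_nhdsGT (show (0 : ℝ) < 1 / 4 by norm_num))).exists
  obtain ⟨γ, γ0, q⟩ := q (κ / (32 * d * d)) (by positivity)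
  obtain ⟨ε, e1, e0, e2⟩ := (Eventually.and (nhdsWithin_le_nhds (ContinuousAt.eventually_lt (x₀ := 0)
    (f := fun ε : ℝ => (1 + 2 * ε) ^ d) (g := fun _ => 1 + min γ κ) (by fun_prop) continuousAt_const
    (by simp [γ0, k0]))) (Ioo_mem_nhdsGT
      (show 0 < min (κ / 8) (min (γ / 2) (η / 2)) by positivity))).exists
  simp only [lt_min_iff] at e2
  obtain ⟨e2, e3, e4⟩ := e2
  refine ⟨4 - 2 * κ, ε, by linarith, e0, by linarith, fun K hi ho => ?_⟩
  have I : of.symm ((2 * ε) • (1 : Matrix (Fin d) (Fin d) ℝ)) ∈ closedBall 0 η ∩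
      {E : Fin d → Fin d → ℝ | ∀ z ≠ 0, (1 + of E) *ᵥ cs z ∉ interior K} := by
    refine ⟨mem_closedBall_zero_iff.2 ((pi_norm_le_iff_of_nonneg η0.le).2 fun i =>
      (pi_norm_le_iff_of_nonneg η0.le).2 fun j => ?_), fun z hz n => ?_⟩
    · simp only [of_symm_apply, Matrix.smul_apply, one_apply, Real.norm_eq_abs]
      split_ifs <;> simp [abs_of_pos e0] <;> linarith
    · obtain ⟨⟨a, ha⟩, b, hb⟩ := pn (hat_sum z) (hat_ne hz)
      have := (ho _ (interior_subset n)).1 a b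
      simp only [Equiv.apply_symm_apply, add_mulVec, one_mulVec, smul_mulVec, hat_add, hat_smul,
        hat_cs] at this
      have ha : (1 : ℝ) ≤ (hat z a : ℤ) := by exact_mod_cast ha
      have hb : ((hat z b : ℤ) : ℝ) ≤ -1 := by exact_mod_cast hb
      nlinarith
  obtain ⟨E, ⟨a1, a2⟩, a3⟩ := IsCompact.exists_isMinOn (f := fun E => |(1 + of E).det|)
    ((isCompact_closedBall _ _).inter_right (by
      simp only [ofPred_forall]
      exact isClosed_iInter fun z => isClosed_iInter fun _ => isOpen_interior.isClosed_compl.preimage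
        ((continuous_const.add continuous_id).matrix_mulVec continuous_const))) ⟨_, I⟩
    (continuous_const.add continuous_id).matrix_det.abs.continuousOn
  rw [mem_closedBall_zero_iff] at a1
  have a4 : |(1 + of E).det| < 1 + min γ κ := by
    have : |(1 + of E).det| ≤ |(1 + (2 * ε) • (1 : Matrix (Fin d) (Fin d) ℝ)).det| := a3 I
    rw [show (1 + (2 * ε) • 1 : Matrix (Fin d) (Fin d) ℝ) = (1 + 2 * ε) • 1 by module, det_smul,
      det_one, mul_one, Fintype.card_fin,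
      abs_of_pos (show 0 < (1 + 2 * ε) ^ d by positivity)] at this
    exact this.trans_lt e1
  have a5 : d * d * ‖E‖ ≤ 1 / 10 := by
    have := a1.trans η1
    rw [le_div_iff₀ (by positivity)] at this
    linarith
  have a6 : d * d * ‖E‖ < κ / 32 := by
    have := q E a1 (fun a b => ?_) (by linarith [min_le_left γ κ])
    · rw [lt_div_iff₀ (by positivity)] at this
      linarith
    by_contra n
    by_cases ab : a = b
    · simp [ab, γ0.le] at n
    refine a2 (rt a b) (fun e => ?_) (hi _ ?_)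
    · have := hat_rt a b a
      rw [e] at this
      cases a <;> simp [ab, hat] at this
    · rw [add_mulVec, one_mulVec]
      exact rt_in (fun c => (sm h1 E _ c).trans ((mul_le_of_le_one_right (by positivity)
        ((pi_norm_le_iff_of_nonneg zero_le_one).2 fun i => by
          simp only [cs, rt]
          split_ifs <;> simp)).trans a5)) (by linarith) (by linarith) (by nlinarith)
  refine ⟨1 + of E, hη E a1, a2, fun B hB h => ?_, ?_⟩
  · by_contra n
    obtain ⟨U, u1, u2⟩ := S B hB (by linarith [min_le_right γ κ]) fun z hz => by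
      by_contra k
      push Not at k
      exact h z hz (hi _ ⟨fun a b => by linarith [k a b], fun a a' b b' _ _ => by
        nlinarith [k a b, k a' b']⟩)
    have e : 1 + of (of.symm (B * U.map (↑)) - of.symm 1) = B * U.map (↑) := add_sub_cancel _ _
    have := a3 ⟨mem_closedBall_zero_iff.2 u2.le, fun z hz => by
      rw [e, ← mulVec_mulVec, show U.map (↑) *ᵥ cs z = cs (U *ᵥ z) by
        ext; simp [cs, mulVec, dotProduct]]
      exact h _ fun c => hz (eq_zero_of_mulVec_eq_zero (by rintro e; simp [e] at u1) c)⟩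
    rw [mem_ofPred_eq] at this
    beta_reduce at this
    rw [e, det_mul, abs_mul, ← Int.cast_det, ← Int.cast_abs, u1] at this
    exact n (by simpa using this)
  · refine lt_of_le_of_lt (b := (Finset.univ.offDiag : Finset (Option (Fin d) × Option (Fin d))).card)
      ?_ (by simp [Finset.offDiag_card, Nat.sub_lt_iff_lt_add]; nlinarith)
    rw [← ncard_coe_finset]
    refine (ncard_le_ncard ?_ (toFinite _)).trans (ncard_image_le (f := fun p => (1 + of E) *ᵥ cs (rt p.1 p.2)))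
    rintro _ ⟨n, h, z, rfl⟩
    obtain ⟨a, b, ab, rfl⟩ := kiss h1 (z := z) (by rintro rfl; simp [cs_zero] at n) (ho _ h) a6.le
      k1 (by linarith) (by nlinarith)
    exact ⟨(a, b), by simpa, rfl⟩

end Pool.Agent.H.MP_2a19ed_co
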