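import Pool.Agent.H.MP_2a19ed_co.E

namespace Pool.Agent.H.MP_2a19ed_co

open Set Filter Topology Matrix Metric TopologicalSpace

variable {d : ℕ} {X : Type} [NormedAddCommGroup X] [NormedSpace ℝ X]

theorem near {K : Set X} (hc : Convex ℝ K) (hk : IsClosed K) {q : X} {r : ℝ} (r0 : 0 < r)
    (h : ∀ w, ‖w‖ ≤ 2 * r → ∃ k ∈ K, dist (q + w) k < r) : q ∈ K := by
  by_contra n
  obtain ⟨f, u, h1, h2⟩ := geometric_hahn_banach_closed_point hc hk n
  have H : ∀ w, ‖w‖ ≤ 2 * r → f w < ‖f‖ * r := fun w hw => by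
    obtain ⟨k, hk, e⟩ := h w hw
    have := (le_abs_self _).trans (f.le_opNorm (q + w - k))
    rw [map_sub, map_add, ← dist_eq_norm] at this
    linarith [h1 k hk, mul_le_mul_of_nonneg_left e.le (norm_nonneg f)]
  obtain ⟨x, x1, x2⟩ := f.exists_lt_apply_of_lt_opNorm (half_lt_self (show 0 < ‖f‖ by
    simpa [r0] using H 0 (by simp [r0.le])))
  have e : ‖(2 * r) • x‖ ≤ 2 * r := by
    rw [norm_smul, Real.norm_of_nonneg (by positivity)]
    exact mul_le_of_le_one_right (by positivity) x1.le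
  have a := H _ e
  have b := H _ ((norm_neg _).trans_le e)
  simp only [map_neg, map_smul, smul_eq_mul] at a b
  rcases abs_cases (f x) with k | k <;> rw [Real.norm_eq_abs, k.1] at x2 <;> nlinarith

omit [NormedSpace ℝ X] in
theorem hd_lt {K L : NonemptyCompacts X} {r : ℝ} (h : dist K L < r) : ∀ x ∈ K, ∃ y ∈ L, dist x y < r :=
  fun _ hx => exists_dist_lt_of_hausdorffDist_lt hx h (hausdorffEDist_ne_top_of_nonempty_of_bounded
    K.nonempty L.nonempty K.isCompact.isBounded L.isCompact.isBounded)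

theorem cl {a b : ℝ} (e : |a| + |b| ≤ 1) :
    IsClosed {K : NonemptyCompacts X | ∀ x ∈ K, ∀ y ∈ K, a • x + b • y ∈ K} := by
  refine isClosed_of_closure_subset fun S hS x hx y hy => ?_
  refine S.isCompact.isClosed.closure_subset (Metric.mem_closure_iff.2 fun ε ε0 => ?_)
  obtain ⟨K, hK, h⟩ := Metric.mem_closure_iff.1 hS _ (half_pos ε0)
  obtain ⟨x', hx', d1⟩ := hd_lt h x hx
  obtain ⟨y', hy', d2⟩ := hd_lt h y hy
  obtain ⟨z, hz, d3⟩ := hd_lt (by rwa [dist_comm]) _ (hK x' hx' y' hy')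
  refine ⟨z, hz, ?_⟩
  have d4 := norm_add_le (a • (x - x')) (b • (y - y'))
  rw [show a • (x - x') + b • (y - y') = a • x + b • y - (a • x' + b • y') by module, norm_smul,
    norm_smul, ← dist_eq_norm, ← dist_eq_norm, ← dist_eq_norm, Real.norm_eq_abs, Real.norm_eq_abs] at d4
  nlinarith [dist_triangle (a • x + b • y) (a • x' + b • y') z, abs_nonneg a, abs_nonneg b]

theorem baire [CompleteSpace X] {Y : Type} [MetricSpace Y] {g : Y → NonemptyCompacts X}
    (iso : Isometry g) (hr : ∀ K, K ∈ range g ↔ Convex ℝ (K : Set X) ∧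
      (interior (K : Set X)).Nonempty ∧ ∀ x ∈ (K : Set X), -x ∈ (K : Set X)) : BaireSpace Y := by
  let C : Set (NonemptyCompacts X) := {K | Convex ℝ (K : Set X) ∧ ∀ x ∈ (K : Set X), -x ∈ (K : Set X)}
  have c : IsClosed C := by
    convert (isClosed_iInter fun a : ℝ => isClosed_iInter fun b : ℝ => isClosed_iInter
      fun ha : 0 ≤ a => isClosed_iInter fun hb : 0 ≤ b => isClosed_iInter fun e : a + b = 1 =>
        cl (X := X) (a := a) (b := b) (by rw [abs_of_nonneg ha, abs_of_nonneg hb, e])).inter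
      (cl (a := -1) (b := 0) (by simp)) using 1
    ext K
    simp only [C, mem_inter_iff, mem_iInter, mem_ofPred_eq, neg_smul, one_smul, zero_smul, add_zero]
    exact ⟨fun h => ⟨fun a b ha hb e x hx y hy => h.1 hx hy ha hb e, fun x hx _ _ => h.2 x hx⟩,
      fun h => ⟨fun x hx y hy a b ha hb e => h.1 a b ha hb e x hx y hy, fun x hx => h.2 x hx x hx⟩⟩
  have := c.completeSpace_coe
  let f : Y → C := fun y => ⟨g y, ((hr _).1 ⟨y, rfl⟩).1, ((hr _).1 ⟨y, rfl⟩).2.2⟩
  have i : Isometry f := iso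
  refine IsOpenEmbedding.baireSpace ⟨i.isEmbedding, Metric.isOpen_iff.2 ?_⟩
  rintro _ ⟨y, rfl⟩
  obtain ⟨q, hq⟩ := ((hr _).1 ⟨y, rfl⟩).2.1
  obtain ⟨r, r0, h⟩ := nhds_basis_closedBall.mem_iff.1 (mem_interior_iff_mem_nhds.1 hq)
  refine ⟨r / 3, by positivity, fun K hK => ?_⟩
  obtain ⟨z, hz⟩ := (hr K).2 ⟨K.2.1, ⟨q, mem_interior_iff_mem_nhds.2 (mem_of_superset
    (ball_mem_nhds q (show 0 < r / 3 by positivity)) fun p hp => near K.2.1 K.1.isCompact.isClosed
      (show 0 < r / 3 by positivity) fun w hw => hd_lt (mem_ball'.1 hK) _ (h (by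
        rw [mem_closedBall_iff_norm, add_sub_right_comm]
        linarith [mem_ball_iff_norm.1 hp, norm_add_le (p - q) w])))⟩, K.2.2⟩
  exact ⟨z, Subtype.ext hz⟩

theorem In_lip (hd : 1 ≤ d) {c t r : ℝ} (hc : 2 ≤ c) {z w : Fin d → ℝ} (h : In c t z) (hw : ‖w‖ ≤ r) :
    In c (t + 2 * d * r) (z + w) := by
  have k : ∀ a, |hat w a| ≤ d * r := fun a =>
    (hat_le hd w a).trans (mul_le_mul_of_nonneg_left hw d.cast_nonneg)
  have := (abs_nonneg _).trans (k none)
  refine ⟨fun a b => ?_, fun a a' b b' ha hb => ?_⟩ <;> simp only [hat_add]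
  · linarith [h.1 a b, abs_le.1 (k a), abs_le.1 (k b)]
  · nlinarith [h.2 a a' b b' ha hb, abs_le.1 (k a), abs_le.1 (k b), abs_le.1 (k a'), abs_le.1 (k b')]

theorem In_zero {c t : ℝ} (hc : 0 ≤ c) (ht : 0 ≤ t) : In c t (0 : Fin d → ℝ) := by
  have : ∀ a, hat (0 : Fin d → ℝ) a = 0 := fun a => (hatL d a).map_zero
  exact ⟨fun a b => by simpa [this], fun _ _ _ _ _ _ => by simp only [this]; norm_num; positivity⟩

theorem main (hd : 2 ≤ d) [CompleteSpace X] (T : X ≃L[ℝ] (Fin d → ℝ)) {Y : Type} [MetricSpace Y]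
    {g : Y → NonemptyCompacts X} (iso : Isometry g) (hr : ∀ K, K ∈ range g ↔ Convex ℝ (K : Set X) ∧
      (interior (K : Set X)).Nonempty ∧ ∀ x ∈ (K : Set X), -x ∈ (K : Set X)) {S : Set Y}
    (hS : IsMeagre S) : ∃ y ∉ S, 0 ∈ interior (T '' g y) ∧ ∃ A : Matrix (Fin d) (Fin d) ℝ, A.det ≠ 0 ∧
      (∀ z ≠ 0, A *ᵥ cs z ∉ interior (T '' g y)) ∧
      (∀ B : Matrix (Fin d) (Fin d) ℝ, B.det ≠ 0 → (∀ z ≠ 0, B *ᵥ cs z ∉ interior (T '' g y)) →
        |A.det| ≤ |B.det|) ∧ {v | v ≠ 0 ∧ v ∈ T '' g y ∧ ∃ z, v = A *ᵥ cs z}.ncard < 2 * d ^ 2 := by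
  have h1 : 1 ≤ d := by omega
  have := baire iso hr
  obtain ⟨c, ε, c3, e0, e1, H⟩ := core hd
  have c2 : 2 ≤ c := by linarith
  obtain ⟨r, r0, e⟩ : ∃ r : ℝ, 0 < r ∧ 2 * d * (3 * r) = ε := ⟨ε / (6 * d), by positivity, by
    field_simp; norm_num⟩
  have cp : IsCompact {z : Fin d → ℝ | In c 1 z} := by
    refine (isCompact_closedBall 0 (2 * 1)).of_isClosed_subset ?_ fun z hz =>
      mem_closedBall_zero_iff.2 (Rg_norm hz.1)
    simp only [In, ofPred_and, ofPred_forall]
    exact (isClosed_iInter fun _ => isClosed_iInter fun _ => isClosed_le (by fun_prop)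
      continuous_const).inter (isClosed_iInter fun _ => isClosed_iInter fun _ => isClosed_iInter
        fun _ => isClosed_iInter fun _ => isClosed_iInter fun _ => isClosed_iInter fun _ =>
          isClosed_le (by fun_prop) continuous_const)
  have ins : ∀ z q : Fin d → ℝ, In c (1 - ε) z → ‖q - z‖ ≤ 3 * r → In c 1 q := fun z q hz hq => by
    simpa [e] using In_lip h1 c2 hz hq
  obtain ⟨y0, hy⟩ := (hr ⟨⟨T ⁻¹' {z | In c 1 z}, T.toHomeomorph.isCompact_preimage.2 cp⟩, 0, by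
      simpa using In_zero (by linarith) zero_le_one⟩).2 ⟨Convex.linear_preimage (s := {z | In c 1 z}) (fun x hx y hy a b ha hb e =>
      ⟨fun u v => by
        simp only [hat_add, hat_smul]
        linear_combination a * hx.1 u v + b * hy.1 u v + 2 * e, fun u u' v v' hu hv => by
        simp only [hat_add, hat_smul]
        linear_combination a * hx.2 u u' v v' hu hv + b * hy.2 u u' v v' hu hv + c * e⟩) T.toLinearMap,
    ⟨0, mem_interior_iff_mem_nhds.2 (T.continuous.continuousAt.preimage_mem_nhds (by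
      rw [map_zero]
      exact mem_of_superset (closedBall_mem_nhds 0 (show 0 < 3 * r by positivity)) fun q hq =>
        ins 0 q (In_zero (by linarith) (by linarith)) (mem_closedBall_iff_norm.1 hq)))⟩,
    fun x hx => show In c 1 (T (-x)) by
      rw [map_neg, ← neg_one_smul ℝ]
      exact ⟨fun u v => by simp only [hat_smul]; linarith [hx.1 v u], fun u u' v v' hu hv => by
        simp only [hat_smul]; linarith [hx.2 v v' u u' hv hu]⟩⟩
  obtain ⟨y, y1, y2⟩ := (dense_of_mem_residual hS).inter_open_nonempty _ isOpen_ball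
    (nonempty_ball.2 (show 0 < r / (‖(T : X →L[ℝ] (Fin d → ℝ))‖ + 1) by positivity) : (ball y0 _).Nonempty)
  rw [mem_ball, ← iso.dist_eq] at y1
  have L : ∀ x y, dist x y < r / (‖(T : X →L[ℝ] (Fin d → ℝ))‖ + 1) → dist (T x) (T y) < r := by
    intro x y h
    rw [lt_div_iff₀ (by positivity)] at h
    have : dist (T x) (T y) ≤ _ := (T : X →L[ℝ] (Fin d → ℝ)).dist_le_opNorm x y
    linarith [dist_nonneg (x := x) (y := y)]
  have hi : ∀ z, In c (1 - ε) z → z ∈ interior (T '' g y) := fun z hz =>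
    mem_interior_iff_mem_nhds.2 (mem_of_superset (ball_mem_nhds z r0) fun q hq => near
      (((hr _).1 ⟨y, rfl⟩).1.linear_image T.toLinearMap) ((g y).isCompact.image T.continuous).isClosed
      r0 fun w hw => by
        obtain ⟨k, k1, k2⟩ := hd_lt ((dist_comm (g y0) _).trans_lt y1) (T.symm (q + w)) (by
          rw [hy]
          show In c 1 (T _)
          rw [T.apply_symm_apply]
          refine ins z _ hz ?_
          rw [add_sub_right_comm]
          linarith [norm_add_le (q - z) w, mem_ball_iff_norm.1 hq])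
        exact ⟨_, ⟨k, k1, rfl⟩, by simpa using L _ _ k2⟩)
  refine ⟨y, y2, hi 0 (In_zero (by linarith) (by linarith)), H _ hi ?_⟩
  rintro _ ⟨x, hx, rfl⟩
  obtain ⟨k, k1, k2⟩ := hd_lt y1 x hx
  rw [hy] at k1
  have := L _ _ k2
  rw [dist_eq_norm] at this
  simpa [e] using In_lip h1 c2 (r := 3 * r) (w := T x - T k) k1 (by linarith)

end Pool.Agent.H.MP_2a19ed_co
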