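import Pool.Agent.H.MP_2a19ed_co.F

namespace Pool.Agent.H.MP_2a19ed_co

open Set Filter Topology Matrix Module

theorem fin {d : ℕ} (hd : 1 ≤ d) {K : Set (EuclideanSpace ℝ (Fin d))} (hc : Convex ℝ K) (hk : IsClosed K)
    (h0 : 0 ∈ interior (EuclideanSpace.equiv (Fin d) ℝ '' K)) {A : Matrix (Fin d) (Fin d) ℝ}
    (a1 : A.det ≠ 0) (a2 : ∀ z ≠ 0, A *ᵥ cs z ∉ interior (EuclideanSpace.equiv (Fin d) ℝ '' K))
    (a3 : ∀ B : Matrix (Fin d) (Fin d) ℝ, B.det ≠ 0 →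
      (∀ z ≠ 0, B *ᵥ cs z ∉ interior (EuclideanSpace.equiv (Fin d) ℝ '' K)) → |A.det| ≤ |B.det|)
    (lam : Basis (Fin d) ℝ (EuclideanSpace ℝ (Fin d)) → ℝ) (hl : ∀ b, lam b = sInf (gauge K ''
      ((Submodule.span ℤ (range ⇑b) : Set (EuclideanSpace ℝ (Fin d))) \ {0})))
    (ρ : Basis (Fin d) ℝ (EuclideanSpace ℝ (Fin d)) → ℝ)
    (hρ : ∀ b, ρ b = lam b ^ d / |(EuclideanSpace.basisFun (Fin d) ℝ).toBasis.det ⇑b|) :
    ∃ b, (∀ b', ρ b' ≤ ρ b) ∧ {l | l ∈ (Submodule.span ℤ (range ⇑b) : Set (EuclideanSpace ℝ (Fin d))) ∧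
      l ≠ 0 ∧ gauge K l = lam b}.ncard =
      {v | v ≠ 0 ∧ v ∈ EuclideanSpace.equiv (Fin d) ℝ '' K ∧ ∃ z, v = A *ᵥ cs z}.ncard := by
  set T := EuclideanSpace.equiv (Fin d) ℝ
  set e := (EuclideanSpace.basisFun (Fin d) ℝ).toBasis
  have I : ∀ x, T x ∈ interior (T '' K) ↔ x ∈ interior K := fun x => by
    rw [show interior (T '' K) = T '' interior K from (T.toHomeomorph.image_interior K).symm,
      T.injective.mem_set_image]
  have n0 : K ∈ 𝓝 0 := mem_interior_iff_mem_nhds.1 ((I 0).1 (by rwa [map_zero]))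
  have G : ∀ x, T x ∉ interior (T '' K) ↔ 1 ≤ gauge K x := fun x => by
    rw [I, ← gauge_lt_one_iff_mem_interior hc n0, not_lt]
  have S : ∀ (b : Basis (Fin d) ℝ (EuclideanSpace ℝ (Fin d))) x,
      x ∈ (Submodule.span ℤ (range ⇑b) : Set _) ↔ ∃ z, T x = e.toMatrix b *ᵥ cs z := fun b x => by
    rw [SetLike.mem_coe, Submodule.mem_span_range_iff_exists_fun]
    refine exists_congr fun z => ?_
    rw [← T.injective.eq_iff, eq_comm]
    refine Eq.congr_right (funext fun i => ?_)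
    simp [T, e, mulVec, dotProduct, cs, Basis.toMatrix_apply, mul_comm]
  have D : ∀ b : Basis (Fin d) ℝ (EuclideanSpace ℝ (Fin d)), (e.toMatrix b).det ≠ 0 := fun b =>
    (e.isUnit_det b).ne_zero
  have Z : ∀ {B : Matrix (Fin d) (Fin d) ℝ}, B.det ≠ 0 → ∀ z ≠ 0, B *ᵥ cs z ≠ 0 := fun hB z hz n =>
    hz (funext fun i => Int.cast_eq_zero.1 (congrFun (eq_zero_of_mulVec_eq_zero hB n) i))
  have bd : ∀ s, BddBelow (gauge K '' s) := fun s => ⟨0, by rintro _ ⟨x, -, rfl⟩; exact gauge_nonneg x⟩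
  have U : ∀ b, ρ b ≤ 1 / |A.det| := fun b => by
    have l0 : 0 ≤ lam b := hl b ▸ Real.sInf_nonneg (by rintro _ ⟨x, -, rfl⟩; exact gauge_nonneg x)
    rw [hρ, Basis.det_apply]
    rcases l0.eq_or_lt with k | k
    · rw [← k, zero_pow (by omega), zero_div]
      positivity
    have := a3 ((lam b)⁻¹ • e.toMatrix b) (by simp [D b, k.ne']) fun z hz => by
      rw [smul_mulVec, ← T.apply_symm_apply (_ *ᵥ _), ← map_smul, G, gauge_smul_of_nonneg
        (inv_pos.2 k).le, smul_eq_mul, le_inv_mul_iff₀ k, mul_one, hl]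
      exact csInf_le (bd _) ⟨_, ⟨(S _ _).2 ⟨z, T.apply_symm_apply _⟩, by simpa using Z (D b) z hz⟩, rfl⟩
    rw [det_smul, abs_mul, Fintype.card_fin, inv_pow, abs_of_pos (inv_pos.2 (pow_pos k d)),
      le_inv_mul_iff₀ (by positivity)] at this
    rwa [div_le_div_iff₀ (abs_pos.2 (D b)) (abs_pos.2 a1), one_mul]
  have hA : e.toMatrix (fun j => T.symm fun i => A i j) = A := by
    ext i j
    simp [T, e, Basis.toMatrix_apply]
  obtain ⟨b1, b2⟩ := (e.is_basis_iff_det (v := fun j => T.symm fun i => A i j)).2 (by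
    rw [Basis.det_apply, hA]; exact a1.isUnit)
  obtain ⟨b, hb⟩ : ∃ b : Basis (Fin d) ℝ (EuclideanSpace ℝ (Fin d)), e.toMatrix b = A :=
    ⟨Basis.mk b1 b2.ge, by rw [Basis.coe_mk, hA]⟩
  have M : ∀ x ∈ (Submodule.span ℤ (range ⇑b) : Set _), x ≠ 0 → 1 ≤ gauge K x := fun x hx n => by
    obtain ⟨z, hz⟩ := (S b x).1 hx
    rw [← G, hz, hb]
    exact a2 z fun c => n (by simpa [c, cs_zero] using hz)
  have l1 : 1 ≤ lam b := hl b ▸ le_csInf ⟨_, b ⟨0, hd⟩, ⟨Submodule.subset_span ⟨_, rfl⟩, b.ne_zero _⟩, rfl⟩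
    (by rintro _ ⟨x, hx, rfl⟩; exact M x hx.1 hx.2)
  have r : ρ b = lam b ^ d / |A.det| := by rw [hρ, Basis.det_apply, hb]
  have l2 : lam b = 1 := le_antisymm ((pow_le_one_iff_of_nonneg (by linarith) (by omega)).1
    ((div_le_div_iff_of_pos_right (abs_pos.2 a1)).1 (r ▸ U b))) l1
  refine ⟨b, fun b' => by rw [r, l2, one_pow]; exact U b', ?_⟩
  rw [← ncard_image_of_injective _ T.injective, l2]
  congr 1
  ext v
  constructor
  · rintro ⟨x, ⟨h1, h2, h3⟩, rfl⟩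
    exact ⟨by simpa, ⟨x, hk.closure_subset ((gauge_le_one_iff_mem_closure hc n0).1 h3.le), rfl⟩,
      hb ▸ (S b x).1 h1⟩
  · rintro ⟨h1, ⟨x, h2, rfl⟩, h3⟩
    have := (S b x).2 (hb ▸ h3)
    have n : x ≠ 0 := by simpa using h1
    exact ⟨x, ⟨this, n, le_antisymm (gauge_le_one_of_mem h2) (M x this n)⟩, rfl⟩

end Pool.Agent.H.MP_2a19ed_co
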