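import Pool.Agent.H.MP_2a19ed_co.F

namespace Pool.Agent.H.MP_2a19ed_co

open Set Filter Topology Matrix Metric TopologicalSpace

variable {d : ℕ} {X : Type} [NormedAddCommGroup X] [NormedSpace ℝ X]

theorem core2 (hd : 2 ≤ d) : ∃ c ε : ℝ, 3 ≤ c ∧ 0 < ε ∧ ε < 1 ∧ ∀ K : Set (Fin d → ℝ),
    (∀ z, In c (1 - ε) z → z ∈ interior K) → (∀ z ∈ K, In c (1 + ε) z) →
    ∃ A : Matrix (Fin d) (Fin d) ℝ, A.det ≠ 0 ∧ (∀ z ≠ 0, A *ᵥ cs z ∉ interior K) ∧
      (∀ B : Matrix (Fin d) (Fin d) ℝ, B.det ≠ 0 → (∀ z ≠ 0, B *ᵥ cs z ∉ interior K) →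
        |A.det| ≤ |B.det|) ∧ ∀ᶠ B in 𝓝 A, ∀ z ≠ 0, B *ᵥ cs z ∈ K → ∃ a b, a ≠ b ∧ z = rt a b := by
  have h1 : 1 ≤ d := by omega
  have d1 : (1 : ℝ) ≤ d := by exact_mod_cast h1
  obtain ⟨η, η0, η1, hη, q⟩ := qloc (d := d) (θ := 1 / (10 * d * d)) (by positivity)
  obtain ⟨κ, S, k0, k1⟩ := ((stab hd η0).and (Ioo_mem_nhdsGT (show (0 : ℝ) < 1 / 4 by norm_num))).exists
  obtain ⟨γ, γ0, q⟩ := q (κ / (32 * d * d)) (by positivity)
  obtain ⟨ε, e1, e0, e2⟩ := (Eventually.and (nhdsWithin_le_nhds (ContinuousAt.eventually_lt (x₀ := 0)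
    (f := fun ε : ℝ => (1 + 2 * ε) ^ d) (g := fun _ => 1 + min γ κ) (by fun_prop) continuousAt_const
    (by simp [γ0, k0]))) (Ioo_mem_nhdsGT
      (show 0 < min (κ / 8) (min (γ / 2) (η / 2)) by positivity))).exists
  simp only [lt_min_iff] at e2
  obtain ⟨e2, e3, e4⟩ := e2
  refine ⟨4 - 2 * κ, ε, by linarith, e0, by linarith, fun K hi ho => ?_⟩
  have I : of.symm ((2 * ε) • (1 : Matrix (Fin d) (Fin d) ℝ)) ∈ closedBall 0 η ∩
      {E : Fin d → Fin d → ℝ | ∀ z ≠ 0, (1 + of E) *ᵥ cs z ∉ interior K} := by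
    refine ⟨mem_closedBall_zero_iff.2 ((pi_norm_le_iff_of_nonneg η0.le).2 fun i =>
      (pi_norm_le_iff_of_nonneg η0.le).2 fun j => ?_), fun z hz n => ?_⟩
    · simp only [of_symm_apply, Matrix.smul_apply, one_apply, Real.norm_eq_abs]
      split_ifs <;> simp [abs_of_pos e0] <;> linarith
    · obtain ⟨⟨a, ha⟩, b, hb⟩ := pn (hat_sum z) (hat_ne hz)
      have := (ho _ (interior_subset n)).1 a b
      simp only [Equiv.apply_symm_apply, add_mulVec, one_mulVec, smul_mulVec, hat_add, hat_smul,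
        hat_cs] at this
      have ha : (1 : ℝ) ≤ (hat z a : ℤ) := by exact_mod_cast ha
      have hb : ((hat z b : ℤ) : ℝ) ≤ -1 := by exact_mod_cast hb
      nlinarith
  obtain ⟨E, ⟨a1, a2⟩, a3⟩ := IsCompact.exists_isMinOn (f := fun E => |(1 + of E).det|)
    ((isCompact_closedBall _ _).inter_right (by
      simp only [ofPred_forall]
      exact isClosed_iInter fun z => isClosed_iInter fun _ => isOpen_interior.isClosed_compl.preimage
        ((continuous_const.add continuous_id).matrix_mulVec continuous_const))) ⟨_, I⟩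
    (continuous_const.add continuous_id).matrix_det.abs.continuousOn
  rw [mem_closedBall_zero_iff] at a1
  have a4 : |(1 + of E).det| < 1 + min γ κ := by
    have : |(1 + of E).det| ≤ |(1 + (2 * ε) • (1 : Matrix (Fin d) (Fin d) ℝ)).det| := a3 I
    rw [show (1 + (2 * ε) • 1 : Matrix (Fin d) (Fin d) ℝ) = (1 + 2 * ε) • 1 by module, det_smul,
      det_one, mul_one, Fintype.card_fin,
      abs_of_pos (show 0 < (1 + 2 * ε) ^ d by positivity)] at this
    exact this.trans_lt e1
  have a5 : d * d * ‖E‖ ≤ 1 / 10 := by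
    have := a1.trans η1
    rw [le_div_iff₀ (by positivity)] at this
    linarith
  have a6 : d * d * ‖E‖ < κ / 32 := by
    have := q E a1 (fun a b => ?_) (by linarith [min_le_left γ κ])
    · rw [lt_div_iff₀ (by positivity)] at this
      linarith
    by_contra n
    by_cases ab : a = b
    · simp [ab, γ0.le] at n
    refine a2 (rt a b) (fun e => ?_) (hi _ ?_)
    · have := hat_rt a b a
      rw [e] at this
      cases a <;> simp [ab, hat] at this
    · rw [add_mulVec, one_mulVec]
      exact rt_in (fun c => (sm h1 E _ c).trans ((mul_le_of_le_one_right (by positivity)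
        ((pi_norm_le_iff_of_nonneg zero_le_one).2 fun i => by
          simp only [cs, rt]
          split_ifs <;> simp)).trans a5)) (by linarith) (by linarith) (by nlinarith)
  refine ⟨1 + of E, hη E a1, a2, fun B hB h => ?_, ?_⟩
  · by_contra n
    obtain ⟨U, u1, u2⟩ := S B hB (by linarith [min_le_right γ κ]) fun z hz => by
      by_contra k
      push Not at k
      exact h z hz (hi _ ⟨fun a b => by linarith [k a b], fun a a' b b' _ _ => by
        nlinarith [k a b, k a' b']⟩)
    have e : 1 + of (of.symm (B * U.map (↑)) - of.symm 1) = B * U.map (↑) := add_sub_cancel _ _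
    have := a3 ⟨mem_closedBall_zero_iff.2 u2.le, fun z hz => by
      rw [e, ← mulVec_mulVec, show U.map (↑) *ᵥ cs z = cs (U *ᵥ z) by
        ext; simp [cs, mulVec, dotProduct]]
      exact h _ fun c => hz (eq_zero_of_mulVec_eq_zero (by rintro e; simp [e] at u1) c)⟩
    rw [mem_ofPred_eq] at this
    beta_reduce at this
    rw [e, det_mul, abs_mul, ← Int.cast_det, ← Int.cast_abs, u1] at this
    exact n (by simpa using this)
  · have c : Continuous fun B : Matrix (Fin d) (Fin d) ℝ => d * d * ‖of.symm B - of.symm 1‖ :=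
      continuous_const.mul (Continuous.norm (E := Fin d → Fin d → ℝ) (continuous_id.sub continuous_const))
    filter_upwards [c.continuousAt.eventually_lt continuousAt_const (g := fun _ => κ / 32)
      (x₀ := 1 + of E) (by rwa [show of.symm (1 + of E) - of.symm 1 = E from add_sub_cancel_left _ _])]
      with B hB z n h
    exact kiss h1 n (ho _ (by rwa [show 1 + of (of.symm B - of.symm 1) = B from add_sub_cancel _ _]))
      hB.le k1 (by linarith) (by nlinarith)

theorem pre (h1 : 1 ≤ d) (T : X ≃L[ℝ] (Fin d → ℝ)) {Y : Type} [MetricSpace Y] [BaireSpace Y]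
    {g : Y → NonemptyCompacts X} (iso : Isometry g) (hv : ∀ y, Convex ℝ (g y : Set X))
    (hr : ∀ K : NonemptyCompacts X, Convex ℝ (K : Set X) ∧ (interior (K : Set X)).Nonempty ∧
      (∀ x ∈ (K : Set X), -x ∈ (K : Set X)) → K ∈ range g) {S : Set Y} (hS : S ∈ residual Y)
    {c ε : ℝ} (c3 : 3 ≤ c) (e0 : 0 < ε) (e1 : ε < 1) : ∃ y ∈ S,
      (∀ z, In c (1 - ε) z → z ∈ interior (T '' g y)) ∧ ∀ z ∈ T '' g y, In c (1 + ε) z := by
  have c2 : 2 ≤ c := by linarith
  obtain ⟨r, r0, e⟩ : ∃ r : ℝ, 0 < r ∧ 2 * d * (3 * r) = ε := ⟨ε / (6 * d), by positivity, by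
    field_simp; norm_num⟩
  have cp : IsCompact {z : Fin d → ℝ | In c 1 z} := by
    refine (isCompact_closedBall 0 (2 * 1)).of_isClosed_subset ?_ fun z hz =>
      mem_closedBall_zero_iff.2 (Rg_norm hz.1)
    simp only [In, ofPred_and, ofPred_forall]
    exact (isClosed_iInter fun _ => isClosed_iInter fun _ => isClosed_le (by fun_prop)
      continuous_const).inter (isClosed_iInter fun _ => isClosed_iInter fun _ => isClosed_iInter
        fun _ => isClosed_iInter fun _ => isClosed_iInter fun _ => isClosed_iInter fun _ =>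
          isClosed_le (by fun_prop) continuous_const)
  have ins : ∀ z q : Fin d → ℝ, In c (1 - ε) z → ‖q - z‖ ≤ 3 * r → In c 1 q := fun z q hz hq => by
    simpa [e] using In_lip h1 c2 hz hq
  obtain ⟨y0, hy⟩ := (hr ⟨⟨T ⁻¹' {z | In c 1 z}, T.toHomeomorph.isCompact_preimage.2 cp⟩, 0, by
      simpa using In_zero (by linarith) zero_le_one⟩) ⟨Convex.linear_preimage (s := {z | In c 1 z}) (fun x hx y hy a b ha hb e =>
      ⟨fun u v => by
        simp only [hat_add, hat_smul]
        linear_combination a * hx.1 u v + b * hy.1 u v + 2 * e, fun u u' v v' hu hv => by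
        simp only [hat_add, hat_smul]
        linear_combination a * hx.2 u u' v v' hu hv + b * hy.2 u u' v v' hu hv + c * e⟩) T.toLinearMap,
    ⟨0, mem_interior_iff_mem_nhds.2 (T.continuous.continuousAt.preimage_mem_nhds (by
      rw [map_zero]
      exact mem_of_superset (closedBall_mem_nhds 0 (show 0 < 3 * r by positivity)) fun q hq =>
        ins 0 q (In_zero (by linarith) (by linarith)) (mem_closedBall_iff_norm.1 hq)))⟩,
    fun x hx => show In c 1 (T (-x)) by
      rw [map_neg, ← neg_one_smul ℝ]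
      exact ⟨fun u v => by simp only [hat_smul]; linarith [hx.1 v u], fun u u' v v' hu hv => by
        simp only [hat_smul]; linarith [hx.2 v v' u u' hv hu]⟩⟩
  obtain ⟨y, y1, y2⟩ := (dense_of_mem_residual hS).inter_open_nonempty _ isOpen_ball
    (nonempty_ball.2 (show 0 < r / (‖(T : X →L[ℝ] (Fin d → ℝ))‖ + 1) by positivity) : (ball y0 _).Nonempty)
  rw [mem_ball, ← iso.dist_eq] at y1
  have L : ∀ x y, dist x y < r / (‖(T : X →L[ℝ] (Fin d → ℝ))‖ + 1) → dist (T x) (T y) < r := by
    intro x y h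
    rw [lt_div_iff₀ (by positivity)] at h
    have : dist (T x) (T y) ≤ _ := (T : X →L[ℝ] (Fin d → ℝ)).dist_le_opNorm x y
    linarith [dist_nonneg (x := x) (y := y)]
  have hi : ∀ z, In c (1 - ε) z → z ∈ interior (T '' g y) := fun z hz =>
    mem_interior_iff_mem_nhds.2 (mem_of_superset (ball_mem_nhds z r0) fun q hq => near
      ((hv y).linear_image T.toLinearMap) ((g y).isCompact.image T.continuous).isClosed
      r0 fun w hw => by
        obtain ⟨k, k1, k2⟩ := hd_lt ((dist_comm (g y0) _).trans_lt y1) (T.symm (q + w)) (by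
          rw [hy]
          show In c 1 (T _)
          rw [T.apply_symm_apply]
          refine ins z _ hz ?_
          rw [add_sub_right_comm]
          linarith [norm_add_le (q - z) w, mem_ball_iff_norm.1 hq])
        exact ⟨_, ⟨k, k1, rfl⟩, by simpa using L _ _ k2⟩)
  refine ⟨y, y2, hi, ?_⟩
  rintro _ ⟨x, hx, rfl⟩
  obtain ⟨k, k1, k2⟩ := hd_lt y1 x hx
  rw [hy] at k1
  have := L _ _ k2
  rw [dist_eq_norm] at this
  simpa [e] using In_lip h1 c2 (r := 3 * r) (w := T x - T k) k1 (by linarith)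

theorem baire0 [CompleteSpace X] {Y : Type} [MetricSpace Y] {g : Y → NonemptyCompacts X}
    (iso : Isometry g) (hr : ∀ K, K ∈ range g ↔ Convex ℝ (K : Set X) ∧
      ∀ x ∈ (K : Set X), -x ∈ (K : Set X)) : BaireSpace Y := by
  have c : IsClosed (range g) := by
    convert (isClosed_iInter fun a : ℝ => isClosed_iInter fun b : ℝ => isClosed_iInter
      fun ha : 0 ≤ a => isClosed_iInter fun hb : 0 ≤ b => isClosed_iInter fun e : a + b = 1 =>
        cl (X := X) (a := a) (b := b) (by rw [abs_of_nonneg ha, abs_of_nonneg hb, e])).inter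
      (cl (a := -1) (b := 0) (by simp)) using 1
    ext K
    simp only [hr, mem_inter_iff, mem_iInter, mem_ofPred_eq, neg_smul, one_smul, zero_smul, add_zero]
    exact ⟨fun h => ⟨fun a b ha hb e x hx y hy => h.1 hx hy ha hb e, fun x hx _ _ => h.2 x hx⟩,
      fun h => ⟨fun x hx y hy a b ha hb e => h.1 a b ha hb e x hx y hy, fun x hx => h.2 x hx x hx⟩⟩
  have := iso.isUniformInducing.completeSpace c.isComplete
  infer_instance

end Pool.Agent.H.MP_2a19ed_co
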