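import Pool.Agent.H.MP_2a19ed_co.H

namespace Pool.Agent.H.MP_2a19ed_co

open Set Filter Topology Matrix Module MeasureTheory

variable {d : ℕ}

theorem dirn (hd : 3 ≤ d) {K : Set (Fin d → ℝ)} (hc : Convex ℝ K) (hs : ∀ x ∈ K, -x ∈ K)
    {A : Matrix (Fin d) (Fin d) ℝ} (a2 : ∀ z ≠ 0, A *ᵥ cs z ∉ interior K)
    (a4 : ∀ᶠ B in 𝓝 A, ∀ z ≠ 0, B *ᵥ cs z ∈ K → ∃ a b, a ≠ b ∧ z = rt a b) :
    ∃ N : Matrix (Fin d) (Fin d) ℝ, N ≠ 0 ∧ N.trace = 0 ∧
      ∀ᶠ t in 𝓝 (0 : ℝ), ∀ z ≠ 0, ((1 + t • N) * A) *ᵥ cs z ∉ interior K := by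
  let r : Fin d → Fin d → Fin d → ℤ := fun i j => rt (some i) (if i = j then none else some j)
  choose f hf using fun i j => geometric_hahn_banach_open_point hc.interior isOpen_interior
    (a2 (r i j) fun e => by
      have := congrFun e i
      by_cases c : i = j <;> simp [r, rt, c] at this)
  let Φ : Matrix (Fin d) (Fin d) ℝ →ₗ[ℝ] Matrix (Fin d) (Fin d) ℝ :=
    { toFun := fun N => of fun i j => if i ≤ j then f i j (N *ᵥ (A *ᵥ cs (r i j))) else
        if i.1 = 1 then N.trace else 0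
      map_add' := fun M N => by
        ext i j
        simp only [of_apply, Matrix.add_apply, add_mulVec, map_add, trace_add]
        split_ifs <;> simp
      map_smul' := fun c N => by
        ext i j
        simp only [of_apply, Matrix.smul_apply, smul_mulVec, map_smul, trace_smul, RingHom.id_apply]
        split_ifs <;> simp }
  have P : ∀ N i j, Φ N i j = if i ≤ j then f i j (N *ᵥ (A *ᵥ cs (r i j))) else
    if i.1 = 1 then N.trace else 0 := fun _ _ _ => rfl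
  obtain ⟨N, n1, n0⟩ : ∃ N, Φ N = 0 ∧ N ≠ 0 := by
    by_contra n
    push Not at n
    obtain ⟨N, e⟩ := LinearMap.injective_iff_surjective.1 ((injective_iff_map_eq_zero Φ).2 n)
      (of fun _ _ => 1)
    have := P N ⟨2, by omega⟩ ⟨0, by omega⟩
    rw [e, if_neg (by simp [Fin.le_def]), if_neg (by simp)] at this
    exact one_ne_zero this
  refine ⟨N, n0, by
    have := P N ⟨1, by omega⟩ ⟨0, by omega⟩
    rw [n1, if_neg (by simp [Fin.le_def]), if_pos rfl] at this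
    exact this.symm, ?_⟩
  have H : ∀ t : ℝ, ∀ i j, i ≤ j → ((1 + t • N) * A) *ᵥ cs (r i j) ∉ interior K := fun t i j h n => by
    have e : f i j (N *ᵥ (A *ᵥ cs (r i j))) = 0 := by simpa [Φ, h] using congrFun (congrFun n1 i) j
    have := hf i j _ n
    rw [← mulVec_mulVec, add_mulVec, one_mulVec, smul_mulVec, map_add, map_smul, e] at this
    simp at this
  have S : ∀ (B : Matrix (Fin d) (Fin d) ℝ) a b, B *ᵥ cs (rt a b) ∈ interior K →
      B *ᵥ cs (rt b a) ∈ interior K := fun B a b h => by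
    rw [show cs (rt b a) = -cs (rt a b) by ext; simp [cs, rt], mulVec_neg]
    exact ((Homeomorph.neg _).preimage_interior K).ge (interior_mono hs h)
  filter_upwards [(Continuous.tendsto' (f := fun t : ℝ => (1 + t • N) * A) (by fun_prop) 0 A
    (by simp)).eventually a4] with t h z hz n
  obtain ⟨a, b, ab, rfl⟩ := h z hz (interior_subset n)
  rcases a with _ | i <;> rcases b with _ | j
  · exact ab rfl
  · exact H t j j le_rfl (by simpa [r] using S _ _ _ n)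
  · exact H t i i le_rfl (by simpa [r] using n)
  · have ij : i ≠ j := by simpa using ab
    rcases le_total i j with c | c
    · exact H t i j c (by simpa [r, ij] using n)
    · exact H t j i c (by simpa [r, ij.symm] using S _ _ _ n)

theorem lin {N : Matrix (Fin d) (Fin d) ℝ} (h : N.trace = 0) {k : ℝ} (hk : 0 < k) :
    ∀ᶠ t in 𝓝[>] (0 : ℝ), 0 < (1 + t • N).det ∧ (1 - k * t) * (1 + t • N).det < 1 := by
  obtain ⟨p, hp⟩ : ∃ p : Polynomial ℝ, ∀ t : ℝ, (1 + t • N).det = 1 + p.eval t * t ^ 2 :=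
    ⟨_, fun t => by rw [det_one_add_smul, h, zero_mul, add_zero]⟩
  simp only [hp]
  filter_upwards [self_mem_nhdsWithin, nhdsWithin_le_nhds (ContinuousAt.eventually_lt (x₀ := 0)
    (f := fun _ => (0 : ℝ)) (g := fun t : ℝ => 1 + p.eval t * t ^ 2) (by fun_prop) (by fun_prop) (by simp)),
    nhdsWithin_le_nhds (ContinuousAt.eventually_lt (x₀ := 0) (g := fun _ => k)
      (f := fun t : ℝ => (1 - k * t) * p.eval t * t) (by fun_prop) (by fun_prop) (by simpa))] with t h0 h1 h2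
  have : 0 < t := h0
  exact ⟨h1, by nlinarith⟩

theorem fin2 (hd : 3 ≤ d) (K : ConvexBody (EuclideanSpace ℝ (Fin d))) (hs : ∀ x ∈ K, -x ∈ K)
    (h0 : 0 ∈ interior (EuclideanSpace.equiv (Fin d) ℝ '' K)) {A : Matrix (Fin d) (Fin d) ℝ}
    (a1 : A.det ≠ 0) (a2 : ∀ z ≠ 0, A *ᵥ cs z ∉ interior (EuclideanSpace.equiv (Fin d) ℝ '' K))
    (a3 : ∀ B : Matrix (Fin d) (Fin d) ℝ, B.det ≠ 0 →
      (∀ z ≠ 0, B *ᵥ cs z ∉ interior (EuclideanSpace.equiv (Fin d) ℝ '' K)) → |A.det| ≤ |B.det|)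
    (a4 : ∀ᶠ B in 𝓝 A, ∀ z ≠ 0, B *ᵥ cs z ∈ EuclideanSpace.equiv (Fin d) ℝ '' K →
      ∃ a b, a ≠ b ∧ z = rt a b) (δ : (Fin d → EuclideanSpace ℝ (Fin d)) → ℝ)
    (hδ : ∀ v, δ v = (⨅ z : {z : Fin d → ℤ // z ≠ 0}, gauge (K : Set (EuclideanSpace ℝ (Fin d)))
      (∑ i, (z.1 i : ℝ) • v i)) ^ d * (volume (K : Set (EuclideanSpace ℝ (Fin d)))).toReal /
        (2 ^ d * (volume (parallelepiped v)).toReal)) :
    (interior (K : Set (EuclideanSpace ℝ (Fin d)))).Nonempty ∧ ∃ b, LinearIndependent ℝ b ∧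
      (∀ v, δ v ≤ δ b) ∧ ∀ c > 0, ∀ ε > 0, ∃ F : EuclideanSpace ℝ (Fin d) →L[ℝ] EuclideanSpace ℝ (Fin d),
        LinearMap.trace ℝ _ F.toLinearMap = 0 ∧ ‖F‖ < ε ∧
          (1 - c * ‖F‖) * δ b < δ fun i => b i + F (b i) := by
  set T := EuclideanSpace.equiv (Fin d) ℝ
  set e := (EuclideanSpace.basisFun (Fin d) ℝ).toBasis
  have I : ∀ x, T x ∈ interior (T '' K) ↔ x ∈ interior (K : Set (EuclideanSpace ℝ (Fin d))) := fun x => by
    rw [show interior (T '' K) = T '' interior K from (T.toHomeomorph.image_interior K).symm,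
      T.injective.mem_set_image]
  have i0 := (I 0).1 (by rwa [map_zero])
  have n0 := mem_interior_iff_mem_nhds.1 i0
  have G : ∀ (v : Fin d → EuclideanSpace ℝ (Fin d)) (c : ℝ) z, 0 < c →
      ((c⁻¹ • e.toMatrix v) *ᵥ cs z ∉ interior (T '' K) ↔
        c ≤ gauge (K : Set (EuclideanSpace ℝ (Fin d))) (∑ i, (z i : ℝ) • v i)) := fun v c z c0 => by
    rw [smul_mulVec, show e.toMatrix v *ᵥ cs z = T (∑ i, (z i : ℝ) • v i) by
      ext i; simp [T, e, mulVec, dotProduct, cs, Basis.toMatrix_apply, mul_comm], ← map_smul, I,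
      ← gauge_lt_one_iff_mem_interior K.convex n0, not_lt, gauge_smul_of_nonneg (inv_pos.2 c0).le,
      smul_eq_mul, le_inv_mul_iff₀ c0, mul_one]
  obtain ⟨V, l, V0, l0, l1, l2, hV⟩ : ∃ V : ℝ, ∃ l : (Fin d → EuclideanSpace ℝ (Fin d)) → ℝ, 0 < V ∧
      (∀ v, 0 ≤ l v) ∧ (∀ v, ∀ z : Fin d → ℤ, z ≠ 0 → l v ≤ gauge (K : Set _) (∑ i, (z i : ℝ) • v i)) ∧
      (∀ v, (∀ z : Fin d → ℤ, z ≠ 0 → 1 ≤ gauge (K : Set _) (∑ i, (z i : ℝ) • v i)) → 1 ≤ l v) ∧
      ∀ v, δ v = l v ^ d / |(e.toMatrix v).det| * V := by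
    have : Nonempty {z : Fin d → ℤ // z ≠ 0} := ⟨1, fun n => one_ne_zero (congrFun n ⟨0, by omega⟩)⟩
    refine ⟨(volume (K : Set (EuclideanSpace ℝ (Fin d)))).toReal / 2 ^ d, fun v =>
      ⨅ z : {z : Fin d → ℤ // z ≠ 0}, gauge (K : Set _) (∑ i, (z.1 i : ℝ) • v i), div_pos (ENNReal.toReal_pos
      (Measure.measure_pos_of_mem_nhds _ n0).ne' K.isCompact.measure_lt_top.ne) (by positivity),
      fun v => Real.iInf_nonneg fun _ => gauge_nonneg _, fun v z hz => ciInf_le_of_le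
        ⟨0, forall_mem_range.2 fun _ => gauge_nonneg _⟩ ⟨z, hz⟩ le_rfl,
      fun v h => le_ciInf fun z => h z.1 z.2, fun v => ?_⟩
    have : volume (parallelepiped v) = ENNReal.ofReal |e.det v| := by
      rw [← (EuclideanSpace.basisFun (Fin d) ℝ).addHaar_eq_volume, Measure.addHaar_parallelepiped]
    rw [hδ, this, ENNReal.toReal_ofReal (abs_nonneg _), Basis.det_apply]
    ring
  have U : ∀ v, δ v ≤ 1 / |A.det| * V := fun v => by
    rw [hV]
    refine mul_le_mul_of_nonneg_right ?_ V0.le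
    rcases eq_or_ne (e.toMatrix v).det 0 with D | D
    · rw [D, abs_zero, div_zero]
      positivity
    rcases (l0 v).eq_or_lt with k | k
    · rw [← k, zero_pow (by omega), zero_div]
      positivity
    have := a3 ((l v)⁻¹ • e.toMatrix v) (by simp [D, k.ne']) fun z hz => (G v _ z k).2 (l1 v z hz)
    rw [det_smul, abs_mul, Fintype.card_fin, inv_pow, abs_of_pos (inv_pos.2 (pow_pos k d)),
      le_inv_mul_iff₀ (by positivity)] at this
    rwa [div_le_div_iff₀ (abs_pos.2 D) (abs_pos.2 a1), one_mul]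
  have W : ∀ v, (∀ z ≠ 0, e.toMatrix v *ᵥ cs z ∉ interior (T '' K)) →
      1 / |(e.toMatrix v).det| * V ≤ δ v := fun v h => by
    rw [hV]
    gcongr
    exact one_le_pow₀ (l2 v fun z hz => (G v 1 z one_pos).1 (by rw [inv_one, one_smul]; exact h z hz))
  obtain ⟨b, hb⟩ : ∃ b : Fin d → EuclideanSpace ℝ (Fin d), e.toMatrix b = A :=
    ⟨fun j => T.symm fun i => A i j, by ext i j; simp [T, e, Basis.toMatrix_apply]⟩
  refine ⟨⟨0, i0⟩, b, (e.is_basis_iff_det.2 (by rw [Basis.det_apply, hb]; exact a1.isUnit)).1,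
    fun v => (U v).trans (by rw [← hb]; exact W b (by rwa [hb])), fun c c0 ε ε0 => ?_⟩
  obtain ⟨N, n1, n2, n3⟩ := dirn hd (K.convex.linear_image T.toLinearMap)
    (by rintro _ ⟨x, hx, rfl⟩; exact ⟨-x, hs x hx, map_neg _ _⟩) a2 a4
  let F := LinearMap.toContinuousLinearMap (toLin e e N)
  have F0 : 0 < ‖F‖ := by simpa [F]
  obtain ⟨t, ⟨t1, t2⟩, t3, t0, t4⟩ := ((lin n2 (mul_pos c0 F0)).and (Eventually.and (nhdsWithin_le_nhds n3)
    (Ioo_mem_nhdsGT (lt_min (div_pos ε0 F0) (one_div_pos.2 (mul_pos c0 F0)))))).exists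
  rw [lt_min_iff, lt_div_iff₀ F0, lt_div_iff₀ (by positivity)] at t4
  have nF : ‖t • F‖ = t * ‖F‖ := by rw [norm_smul, Real.norm_of_nonneg t0.le]
  have M : e.toMatrix (fun i => b i + (t • F) (b i)) = (1 + t • N) * A := by
    ext i j
    simp [← hb, F, e, Basis.toMatrix_apply, add_mul, mul_apply, toLin_apply, mulVec, dotProduct,
      Finset.mul_sum, mul_assoc, one_apply, Finset.sum_add_distrib]
  refine ⟨t • F, by simp [F, n2], nF.trans_lt t4.1, ?_⟩
  refine lt_of_lt_of_le ?_ (W _ (by rwa [M]))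
  refine (mul_le_mul_of_nonneg_left (U b) (by rw [nF]; linarith [t4.2])).trans_lt ?_
  rw [M, det_mul, abs_mul, abs_of_pos t1, nF, ← mul_assoc]
  have := abs_pos.2 a1
  gcongr
  rw [lt_div_iff₀ (by positivity)]
  field_simp
  linarith

end Pool.Agent.H.MP_2a19ed_co
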